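import Pool.Agent.U705.JOp

/-!
# The lower bound for decompositions, and the algebra of bounded functions
-/

set_option autoImplicit false
set_option linter.unusedSectionVars false
set_option linter.unusedVariables false

open scoped InnerProductSpace ComplexConjugate CStarMatrix WithCStarModule ENNReal

namespace Pool.Agent.U705

noncomputable section

variable {A : Type*} [NonUnitalCStarAlgebra A] [PartialOrder A] [StarOrderedRing A]

/-- the condition of multiplicative (Haagerup) boundedness of the frozen statement -/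
def MB (φ : A →ₗ[ℂ] A →ₗ[ℂ] (HH →L[ℂ] HH)) (C : ℝ) : Prop :=
  ∀ (n : ℕ) (a : CStarMatrix (Fin n) (Fin n) A)
    (b : CStarMatrix (Fin n) (Fin n) A) (x : Fin n → HH),
    ∑ i : Fin n, ‖∑ j : Fin n, ∑ k : Fin n, φ (a i k) (b k j) (x j)‖ ^ 2
      ≤ (C * ‖a‖ * ‖b‖) ^ 2 * ∑ j : Fin n, ‖x j‖ ^ 2

/-- the basis vectors -/
def EE (q : OP) (t : ZMod q.1) : HH := lp.single 2 q (EuclideanSpace.single t 1)

theorem norm_EE (q : OP) (t : ZMod q.1) : ‖EE q t‖ = 1 := by
  unfold EE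
  rw [lp.norm_single (by norm_num)]
  simp

theorem EE_self (q : OP) (t : ZMod q.1) : (EE q t : HH) q = EuclideanSpace.single t 1 := by
  unfold EE
  rw [lp.coeFn_single, Pi.single_eq_same]

theorem EE_ne (q q' : OP) (h : q' ≠ q) (t : ZMod q.1) : (EE q t : HH) q' = 0 := by
  unfold EE
  rw [lp.coeFn_single, Pi.single_eq_of_ne h]

/-- the consequence of multiplicative boundedness -/
theorem MB_test (T : Pts Idx A) (q : OP) {φ : A →ₗ[ℂ] A →ₗ[ℂ] (HH →L[ℂ] HH)} {C : ℝ}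
    (h : MB φ C) (c : ZMod q.1 → ZMod q.1 → ℂ) (hc : ∀ k t, c k t * conj (c k t) = 1) :
    ‖∑ t : ZMod q.1, ∑ k : ZMod q.1,
      c k t • φ (T.d (ix q k)) (T.d (ix q (t - k))) (EE q t)‖ ^ 2 ≤ C ^ 2 * q.1 := by
  classical
  set e : Fin q.1 ≃ ZMod q.1 := (ZMod.finEquiv q.1).toEquiv with he
  have hpos : 0 < q.1 := q.2.1.pos
  set i₀ : Fin q.1 := ⟨0, hpos⟩
  have ha : ‖(mkM (fun i k => if i = i₀ then T.d (ix q (e k)) else 0) :
      CStarMatrix (Fin q.1) (Fin q.1) A)‖ ≤ 1 :=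
    row_pi T i₀ (fun k => ix q (e k)) fun k k' hk => e.injective (ix_inj hk)
  have hb : ‖(mkM (fun k t => c (e k) (e t) • T.d (ix q (e t - e k))) :
      CStarMatrix (Fin q.1) (Fin q.1) A)‖ ≤ 1 := by
    refine perm_pi T (fun k t => c (e k) (e t)) (fun k t => hc _ _)
      (fun k t => ix q (e t - e k)) ?_ ?_
    · intro k t t' ht
      have := ix_inj ht
      exact e.injective (by simpa using this)
    · intro k k' t ht
      have := ix_inj ht
      exact e.injective (by simpa using this)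
  have h1 := h q.1 (mkM (fun i k => if i = i₀ then T.d (ix q (e k)) else 0))
    (mkM (fun k t => c (e k) (e t) • T.d (ix q (e t - e k)))) (fun j => EE q (e j))
  simp only [mkM_apply, norm_EE, one_pow, Finset.sum_const, Finset.card_univ, Fintype.card_fin,
    nsmul_eq_mul, mul_one] at h1
  have h2 := (Finset.single_le_sum (f := fun i : Fin q.1 => ‖∑ j : Fin q.1, ∑ k : Fin q.1,
    φ (if i = i₀ then T.d (ix q (e k)) else 0) (c (e k) (e j) • T.d (ix q (e j - e k)))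
      (EE q (e j))‖ ^ 2) (fun i _ => sq_nonneg _) (Finset.mem_univ i₀)).trans h1
  simp only [if_true] at h2
  have h3 : ∑ t : ZMod q.1, ∑ k : ZMod q.1,
      c k t • φ (T.d (ix q k)) (T.d (ix q (t - k))) (EE q t) =
      ∑ j : Fin q.1, ∑ k : Fin q.1, φ (T.d (ix q (e k))) (c (e k) (e j) • T.d (ix q (e j - e k)))
        (EE q (e j)) := by
    refine (Fintype.sum_equiv e _ _ fun j => ?_).symm
    refine Fintype.sum_equiv e _ _ fun k => ?_
    rw [map_smul]
    rfl
  rw [h3]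
  refine h2.trans ?_
  have hC : (C * ‖(mkM (fun i k => if i = i₀ then T.d (ix q (e k)) else 0) :
      CStarMatrix (Fin q.1) (Fin q.1) A)‖ * ‖(mkM (fun k t => c (e k) (e t) •
        T.d (ix q (e t - e k))) : CStarMatrix (Fin q.1) (Fin q.1) A)‖) ^ 2 ≤ C ^ 2 := by
    rw [mul_assoc, mul_pow]
    have h0 := mul_le_one₀ ha (norm_nonneg _) hb
    have h00 : 0 ≤ ‖(mkM (fun i k => if i = i₀ then T.d (ix q (e k)) else 0) :
      CStarMatrix (Fin q.1) (Fin q.1) A)‖ * ‖(mkM (fun k t => c (e k) (e t) •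
        T.d (ix q (e t - e k))) : CStarMatrix (Fin q.1) (Fin q.1) A)‖ := by positivity
    have h5 := pow_le_one₀ (n := 2) h00 h0
    have h6 := sq_nonneg C
    nlinarith
  exact mul_le_mul_of_nonneg_right hC (by positivity)

theorem Phi_d (T : Pts Idx A) (q : OP) (k t : ZMod q.1) :
    Phi T (T.d (ix q k)) (T.d (ix q (t - k))) (EE q t) =
      (((cc q / q.1 : ℝ) : ℂ) * psi (-(t ^ 2 * k))) • EE q 0 := by
  ext q' s
  rw [Phi_apply]
  by_cases hq : q' = q
  · subst hq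
    have h1 : phi T q' (T.d (ix q' k)) (T.d (ix q' (t - k))) t =
        ((cc q' / q'.1 : ℝ) : ℂ) * psi (-(t ^ 2 * k)) := by
      unfold phi
      congr 1
      rw [Finset.sum_eq_single k]
      · rw [T.ev_self, T.ev_self]
        simp
      · intro s _ hs
        rw [T.ev_ne _ _ (fun h => hs (ix_inj h))]
        simp
      · intro h
        exact absurd (Finset.mem_univ _) h
    unfold blk
    rw [EE_self, Finset.sum_eq_single t]
    · rw [h1, lp.coeFn_smul, Pi.smul_apply, EE_self]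
      simp
    · intro s _ hs
      simp [hs]
    · intro h
      exact absurd (Finset.mem_univ _) h
  · unfold blk
    rw [EE_ne _ _ hq, lp.coeFn_smul, Pi.smul_apply, EE_ne _ _ hq]
    simp

/-- **The lower bound.** -/
theorem lower (T : Pts Idx A) (φ₁ φ₂ : A →ₗ[ℂ] A →ₗ[ℂ] (HH →L[ℂ] HH)) (C₁ C₂ : ℝ)
    (h₁ : MB φ₁ C₁) (h₂ : MB φ₂ C₂) (h : ∀ a b, Phi T a b = φ₁ a b + φ₂ b a) (q : OP) :
    cc q ^ 2 * q.1 ≤ (|C₁| + |C₂|) ^ 2 := by
  have hp := p_pos q
  have hcc := cc_pos q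
  have t1 := MB_test T q h₁ (fun k t => psi (t ^ 2 * k)) (fun k t => by
    rw [conj_psi]; exact psi_mul_conj _)
  have t2 := MB_test T q h₂ (fun k t => psi (t ^ 2 * (t - k))) (fun k t => by
    rw [conj_psi]; exact psi_mul_conj _)
  set v₁ := ∑ t : ZMod q.1, ∑ k : ZMod q.1,
      psi (t ^ 2 * k) • φ₁ (T.d (ix q k)) (T.d (ix q (t - k))) (EE q t) with hv1
  set v₂ := ∑ t : ZMod q.1, ∑ k : ZMod q.1,
      psi (t ^ 2 * (t - k)) • φ₂ (T.d (ix q k)) (T.d (ix q (t - k))) (EE q t) with hv2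
  have e2 : v₂ = ∑ t : ZMod q.1, ∑ k : ZMod q.1,
      psi (t ^ 2 * k) • φ₂ (T.d (ix q (t - k))) (T.d (ix q k)) (EE q t) := by
    rw [hv2]
    refine Finset.sum_congr rfl fun t _ => ?_
    refine Fintype.sum_equiv (Equiv.subLeft t) _ _ fun k => ?_
    simp only [Equiv.subLeft_apply, sub_sub_cancel]
  have e3 : v₁ + v₂ = ((cc q * q.1 : ℝ) : ℂ) • EE q 0 := by
    rw [e2, hv1, ← Finset.sum_add_distrib]
    have : ∀ t ∈ (Finset.univ : Finset (ZMod q.1)),
        (∑ k : ZMod q.1, psi (t ^ 2 * k) • φ₁ (T.d (ix q k)) (T.d (ix q (t - k))) (EE q t)) +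
        (∑ k : ZMod q.1, psi (t ^ 2 * k) • φ₂ (T.d (ix q (t - k))) (T.d (ix q k)) (EE q t)) =
        ((cc q : ℝ) : ℂ) • EE q 0 := by
      intro t _
      rw [← Finset.sum_add_distrib]
      have : ∀ k ∈ (Finset.univ : Finset (ZMod q.1)),
          psi (t ^ 2 * k) • φ₁ (T.d (ix q k)) (T.d (ix q (t - k))) (EE q t) +
          psi (t ^ 2 * k) • φ₂ (T.d (ix q (t - k))) (T.d (ix q k)) (EE q t) =
          ((cc q / q.1 : ℝ) : ℂ) • EE q 0 := by
        intro k _
        rw [← smul_add, ← _root_.add_apply, ← h, Phi_d, smul_smul]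
        congr 1
        rw [mul_left_comm, psi_mul_conj, mul_one]
      rw [Finset.sum_congr rfl this, Finset.sum_const, Finset.card_univ, ZMod.card,
        ← Nat.cast_smul_eq_nsmul ℂ, smul_smul]
      congr 1
      have hq0 : ((q.1 : ℕ) : ℂ) ≠ 0 := by exact_mod_cast hp.ne'
      push_cast
      rw [mul_div_assoc', mul_comm, mul_div_assoc, div_self hq0, mul_one]
    rw [Finset.sum_congr rfl this, Finset.sum_const, Finset.card_univ, ZMod.card,
      ← Nat.cast_smul_eq_nsmul ℂ, smul_smul]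
    congr 1
    push_cast
    ring
  have e4 : cc q * q.1 ≤ ‖v₁‖ + ‖v₂‖ := by
    have := norm_add_le v₁ v₂
    rw [e3, norm_smul, norm_EE, mul_one, Complex.norm_real, Real.norm_eq_abs,
      abs_of_nonneg (by positivity)] at this
    exact this
  have sp : √(q.1 : ℝ) ^ 2 = q.1 := Real.sq_sqrt hp.le
  have b1 : ‖v₁‖ ≤ |C₁| * √(q.1 : ℝ) := by
    refine le_of_sq_le_sq ?_ (by positivity)
    rw [mul_pow, sq_abs, sp]
    exact t1
  have b2 : ‖v₂‖ ≤ |C₂| * √(q.1 : ℝ) := by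
    refine le_of_sq_le_sq ?_ (by positivity)
    rw [mul_pow, sq_abs, sp]
    exact t2
  have e5 : cc q * q.1 ≤ (|C₁| + |C₂|) * √(q.1 : ℝ) := by linarith
  have e6 : (cc q * q.1) ^ 2 ≤ ((|C₁| + |C₂|) * √(q.1 : ℝ)) ^ 2 := by gcongr
  rw [mul_pow, mul_pow, sp] at e6
  have e7 : cc q ^ 2 * q.1 * q.1 ≤ (|C₁| + |C₂|) ^ 2 * q.1 := by linarith
  exact le_of_mul_le_mul_right e7 hp

/-- there is no decomposition -/
theorem no_dec (T : Pts Idx A) (φ₁ φ₂ : A →ₗ[ℂ] A →ₗ[ℂ] (HH →L[ℂ] HH)) (C₁ C₂ : ℝ)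
    (h₁ : MB φ₁ C₁) (h₂ : MB φ₂ C₂) (h : ∀ a b, Phi T a b = φ₁ a b + φ₂ b a) : False := by
  set K : ℝ := (|C₁| + |C₂|) ^ 2 with hK
  have hK0 : 0 ≤ K := sq_nonneg _
  obtain ⟨N, hN⟩ := exists_nat_gt (2 * K ^ 2)
  obtain ⟨p, hpN, hp⟩ := Nat.exists_infinite_primes (N + 3)
  have hlow := lower T φ₁ φ₂ C₁ C₂ h₁ h₂ h ⟨p, hp, by omega⟩
  have hcs := cc_sq ⟨p, hp, by omega⟩
  set q : OP := ⟨p, hp, by omega⟩ with hq
  have hp0 : (0 : ℝ) < p := by exact_mod_cast hp.pos
  have hs : √(2 * (p : ℝ)) ^ 2 = 2 * p := Real.sq_sqrt (by positivity)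
  have hs0 : 0 < √(2 * (p : ℝ)) := by positivity
  have h1 : (p : ℝ) ≤ K * √(2 * (p : ℝ)) := by
    have h2 : cc q ^ 2 * (p : ℝ) * √(2 * (p : ℝ)) ≤ K * √(2 * (p : ℝ)) :=
      mul_le_mul_of_nonneg_right hlow hs0.le
    have h3 : cc q ^ 2 * (p : ℝ) * √(2 * (p : ℝ)) = (cc q ^ 2 * √(2 * (p : ℝ))) * p := by ring
    have h4 : cc q ^ 2 * √(2 * (p : ℝ)) = 1 := hcs
    rw [h3, h4, one_mul] at h2
    exact h2
  have h2 : (p : ℝ) ^ 2 ≤ (K * √(2 * (p : ℝ))) ^ 2 := by gcongr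
  rw [mul_pow, hs] at h2
  have h3 : (p : ℝ) ≤ 2 * K ^ 2 := by
    have : (p : ℝ) * p ≤ 2 * K ^ 2 * p := by nlinarith
    exact le_of_mul_le_mul_right this hp0
  have h4 : (N : ℝ) < p := by exact_mod_cast (by omega : N < p)
  linarith

/-! ### the algebra of bounded functions -/

instance : TopologicalSpace Idx := ⊥
instance : DiscreteTopology Idx := ⟨rfl⟩

open BoundedContinuousFunction Classical in
/-- the points of the algebra of bounded functions on `Idx` -/
def bddPts : Pts Idx (Idx →ᵇ ℂ) where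
  ev i :=
    { toFun := fun f => f i
      map_smul' := fun _ _ => rfl
      map_zero' := rfl
      map_add' := fun _ _ => rfl
      map_mul' := fun _ _ => rfl
      map_star' := fun _ => rfl }
  d i := BoundedContinuousFunction.ofNormedAddCommGroupDiscrete (fun j => if j = i then 1 else 0) 1
    (fun j => by split_ifs <;> simp)
  ev_self i := by
    change (if i = i then (1 : ℂ) else 0) = 1
    rw [if_pos rfl]
  ev_ne i j h := by
    change (if i = j then (1 : ℂ) else 0) = 0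
    rw [if_neg h]
  sep a b h := BoundedContinuousFunction.ext h
  norm_d i := by
    refine (BoundedContinuousFunction.norm_le zero_le_one).2 fun j => ?_
    change ‖(if j = i then (1 : ℂ) else 0)‖ ≤ 1
    split_ifs <;> simp

end

end Pool.Agent.U705
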