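import Pool.Agent.U705.ONLSpace

set_option autoImplicit false

/-!
# The box space of expanders does not have property A
-/

namespace Pool.Agent.U705.ONL

open Finset

/-- finite combinatorial core: on an expander there is no slowly varying family of
finite sets with small multiplicity -/
theorem core {V Ω : Type} [Fintype V] [DecidableEq V] [DecidableEq Ω] [Nonempty V]
    (Adj : V → V → Prop) (D : ℕ)
    (hdeg : ∀ x (A : Finset V), (∀ y ∈ A, Adj x y) → A.card ≤ D)
    (hexp : ∀ S : Finset V, 2 * S.card ≤ Fintype.card V →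
      ∃ T : Finset V, Disjoint S T ∧ (∀ y ∈ T, ∃ x ∈ S, Adj x y) ∧
        (1 / 2 : ℝ) * S.card ≤ T.card)
    (a : V → Finset Ω) (ε : ℝ) (hε0 : 0 ≤ ε) (hε : D * ε < 1 / 2)
    (hne : ∀ x, (a x).Nonempty)
    (hB : ∀ ω, 2 * (univ.filter (fun x => ω ∈ a x)).card ≤ Fintype.card V)
    (hA : ∀ x y, Adj x y → ((a x \ a y).card : ℝ) ≤ ε * (a x).card) : False := by
  classical
  set W : Finset Ω := univ.biUnion a with hW
  have hsub : ∀ x, a x ⊆ W := fun x => Finset.subset_biUnion_of_mem a (mem_univ x)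
  choose! T hT1 hT2 hT3 using fun ω => hexp _ (hB ω)
  -- sum of the sizes of the B's
  have h1 : ∑ ω ∈ W, ((univ.filter (fun x => ω ∈ a x)).card : ℝ) = ∑ x, ((a x).card : ℝ) := by
    have : ∀ ω, ((univ.filter (fun x => ω ∈ a x)).card : ℝ) = ∑ x, if ω ∈ a x then (1:ℝ) else 0 := by
      intro ω
      rw [Finset.sum_ite, Finset.sum_const_zero, add_zero, Finset.sum_const, nsmul_eq_mul, mul_one]
    simp_rw [this]
    rw [Finset.sum_comm]
    apply Finset.sum_congr rfl
    intro x _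
    rw [Finset.sum_ite, Finset.sum_const_zero, add_zero, Finset.sum_const, nsmul_eq_mul, mul_one]
    congr 2
    ext ω
    rw [Finset.mem_filter]
    exact ⟨fun h => h.2, fun h => ⟨hsub x h, h⟩⟩
  have h2 : ∀ ω ∈ W, ((T ω).card : ℝ) ≤
      ∑ x, ∑ y, if (Adj x y ∧ ω ∈ a x \ a y) then (1:ℝ) else 0 := by
    intro ω _
    rw [Finset.sum_comm]
    have h3 : ((T ω).card : ℝ) = ∑ y, if y ∈ T ω then (1:ℝ) else 0 := by
      rw [Finset.sum_ite_mem, Finset.univ_inter, Finset.sum_const, nsmul_eq_mul, mul_one]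
    rw [h3]
    apply Finset.sum_le_sum
    intro y _
    split_ifs with hy
    · obtain ⟨x, hx, hxy⟩ := hT2 ω y hy
      have hyn : ω ∉ a y := by
        intro hc
        exact Finset.disjoint_left.1 (hT1 ω) (mem_filter.2 ⟨mem_univ _, hc⟩) hy
      rw [mem_filter] at hx
      calc (1:ℝ) = if (Adj x y ∧ ω ∈ a x \ a y) then (1:ℝ) else 0 := by
            rw [if_pos ⟨hxy, mem_sdiff.2 ⟨hx.2, hyn⟩⟩]
        _ ≤ _ := Finset.single_le_sum (f := fun x => if (Adj x y ∧ ω ∈ a x \ a y) then (1:ℝ) else 0)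
            (fun i _ => by split_ifs <;> norm_num) (mem_univ x)
    · apply Finset.sum_nonneg
      intro i _
      split_ifs <;> norm_num
  have h4 : ∑ ω ∈ W, ((T ω).card : ℝ) ≤ ∑ x, (D * ε) * ((a x).card : ℝ) := by
    refine (Finset.sum_le_sum h2).trans ?_
    rw [Finset.sum_comm]
    apply Finset.sum_le_sum
    intro x _
    rw [Finset.sum_comm]
    calc ∑ y, ∑ ω ∈ W, (if (Adj x y ∧ ω ∈ a x \ a y) then (1:ℝ) else 0)
        ≤ ∑ y, if Adj x y then ε * ((a x).card : ℝ) else 0 := by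
          apply Finset.sum_le_sum
          intro y _
          split_ifs with hxy
          · refine le_trans (le_of_eq ?_) (hA x y hxy)
            rw [Finset.sum_ite, Finset.sum_const_zero, add_zero, Finset.sum_const, nsmul_eq_mul,
              mul_one]
            congr 2
            ext ω
            rw [Finset.mem_filter]
            exact ⟨fun h => h.2.2, fun h => ⟨hsub x (mem_sdiff.1 h).1, hxy, h⟩⟩
          · apply le_of_eq
            apply Finset.sum_eq_zero
            intro ω _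
            rw [if_neg (fun h => hxy h.1)]
      _ = ((univ.filter (fun y => Adj x y)).card : ℝ) * (ε * ((a x).card : ℝ)) := by
          rw [Finset.sum_ite, Finset.sum_const_zero, add_zero, Finset.sum_const, nsmul_eq_mul]
      _ ≤ D * (ε * ((a x).card : ℝ)) := by
          apply mul_le_mul_of_nonneg_right _ (by positivity)
          exact_mod_cast hdeg x _ (fun y hy => (mem_filter.1 hy).2)
      _ = _ := by ring
  have h5 : (1 / 2 : ℝ) * ∑ x, ((a x).card : ℝ) ≤ ∑ ω ∈ W, ((T ω).card : ℝ) := by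
    rw [← h1, Finset.mul_sum]
    exact Finset.sum_le_sum (fun ω _ => hT3 ω)
  have hpos : 0 < ∑ x, ((a x).card : ℝ) := by
    apply Finset.sum_pos
    · intro x _
      exact_mod_cast Finset.card_pos.2 (hne x)
    · exact Finset.univ_nonempty
  rw [← Finset.mul_sum] at h4
  nlinarith

/-- the box space fails property A -/
theorem no_A (G : ∀ n : ℕ, SimpleGraph (Fin (n + 2)))
    (hG : ∀ n, (G n).Connected)
    (hdeg : ∀ n x (A : Finset (Fin (n + 2))), (∀ y ∈ A, (G n).Adj x y) → A.card ≤ 48)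
    (hexp : ∀ n (S : Finset (Fin (n + 2))), 2 * S.card ≤ n + 2 →
      ∃ T : Finset (Fin (n + 2)), Disjoint S T ∧ (∀ y ∈ T, ∃ x ∈ S, (G n).Adj x y) ∧
        (1 / 2 : ℝ) * S.card ≤ T.card)
    (S : ℝ) (A : Box G → Set (Box G × ℕ)) (hfin : ∀ x, (A x).Finite)
    (h0 : ∀ x, (x, 0) ∈ A x) (hS : ∀ x, ∀ w ∈ A x, (Box.nd G w.1 x : ℝ) ≤ S)
    (hA : ∀ x y, (Box.nd G x y : ℝ) < 2 →
      ((symmDiff (A x) (A y)).ncard : ℝ) < 1 / 200 * ((A x ∩ A y).ncard : ℝ)) : False := by
  classical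
  obtain ⟨N, hN⟩ := Box.near_card G hG hdeg ⌈S⌉₊
  set n := 2 * N with hn
  let a : Fin (n + 2) → Finset (Box G × ℕ) := fun x => (hfin ⟨n, x⟩).toFinset
  have ha : ∀ x, ((a x : Finset (Box G × ℕ)) : Set (Box G × ℕ)) = A ⟨n, x⟩ :=
    fun x => Set.Finite.coe_toFinset _
  apply core (V := Fin (n + 2)) (Ω := Box G × ℕ) (fun x y => (G n).Adj x y) 48 (hdeg n)
    (by simpa only [Fintype.card_fin] using hexp n) a (1 / 200) (by norm_num) (by norm_num)
  · intro x
    exact ⟨(⟨n, x⟩, 0), (Set.Finite.mem_toFinset _).2 (h0 _)⟩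
  · intro ω
    rw [Fintype.card_fin]
    have h1 : (univ.filter (fun x => ω ∈ a x)).card ≤ N := by
      refine le_trans ?_ (hN ω.1).2
      rw [← Set.ncard_coe_finset]
      apply Set.ncard_le_ncard_of_injOn (fun x : Fin (n + 2) => (⟨n, x⟩ : Box G)) _ _ (hN ω.1).1
      · intro x hx
        rw [Finset.mem_coe, Finset.mem_filter] at hx
        have h3 := hS ⟨n, x⟩ ω ((Set.Finite.mem_toFinset _).1 hx.2)
        have h4 : (Box.nd G ω.1 ⟨n, x⟩ : ℝ) ≤ ((⌈S⌉₊ : ℕ) : ℝ) := h3.trans (Nat.le_ceil S)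
        have h5 : Box.nd G ω.1 ⟨n, x⟩ ≤ ⌈S⌉₊ := by exact_mod_cast h4
        rw [Box.nd_comm] at h5
        exact h5
      · intro x _ y _ hxy
        simpa using hxy
    omega
  · intro x y hxy
    have h1 : Box.nd G ⟨n, x⟩ ⟨n, y⟩ = 1 := by
      rw [Box.nd_same]
      exact SimpleGraph.dist_eq_one_iff_adj.2 hxy
    have h2 := hA ⟨n, x⟩ ⟨n, y⟩ (by rw [h1]; norm_num)
    have h3 : ((a x \ a y).card : ℝ) ≤ ((symmDiff (A ⟨n, x⟩) (A ⟨n, y⟩)).ncard : ℝ) := by
      rw [← Set.ncard_coe_finset]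
      have : (((a x \ a y : Finset (Box G × ℕ))) : Set (Box G × ℕ)) = A ⟨n, x⟩ \ A ⟨n, y⟩ := by
        rw [Finset.coe_sdiff, ha, ha]
      rw [this]
      have h4 : A ⟨n, x⟩ \ A ⟨n, y⟩ ⊆ symmDiff (A ⟨n, x⟩) (A ⟨n, y⟩) := by
        intro w hw
        exact Or.inl hw
      exact_mod_cast Set.ncard_le_ncard h4 (by
        apply Set.Finite.subset ((hfin ⟨n, x⟩).union (hfin ⟨n, y⟩))
        rintro w (hw | hw)
        · exact Or.inl hw.1
        · exact Or.inr hw.1)
    have h5 : ((A ⟨n, x⟩ ∩ A ⟨n, y⟩).ncard : ℝ) ≤ (a x).card := by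
      rw [← Set.ncard_coe_finset, ha]
      exact_mod_cast Set.ncard_le_ncard Set.inter_subset_left (hfin _)
    linarith

end Pool.Agent.U705.ONL
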