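import Mathlib

set_option autoImplicit false

/-!
# Operators on vector valued `L¹` of a countable set almost attain their norm at a single point
-/

open MeasureTheory
open scoped ENNReal

namespace Pool.Agent.U705.ONL

variable {X : Type} [MeasurableSpace X] [MeasurableSingletonClass X] [Countable X]
  {ν : Measure X} {E : Type} [NormedAddCommGroup E] [NormedSpace ℝ E]
  {F : Type} [NormedAddCommGroup F] [NormedSpace ℝ F]

omit [NormedSpace ℝ E] in
lemma meas (s : Set X) : MeasurableSet s := (Set.to_countable s).measurableSet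

/-- restriction of an `L¹` function to a set -/
noncomputable def ind (s : Set X) (g : Lp E 1 ν) : Lp E 1 ν :=
  ((Lp.memLp g).indicator (meas s)).toLp _

omit [NormedSpace ℝ E] in
lemma ind_coe (s : Set X) (g : Lp E 1 ν) : ⇑(ind s g) =ᵐ[ν] s.indicator g :=
  MemLp.coeFn_toLp _

omit [NormedSpace ℝ E] in
lemma norm_ind (s : Set X) (g : Lp E 1 ν) : ‖ind s g‖ = ∫ x in s, ‖g x‖ ∂ν := by
  rw [L1.norm_eq_integral_norm, ← integral_indicator (meas s)]
  apply integral_congr_ae
  filter_upwards [ind_coe s g] with x hx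
  rw [hx]
  by_cases h : x ∈ s <;> simp [h]

omit [NormedSpace ℝ E] in
lemma ind_add (s : Set X) (g : Lp E 1 ν) : ind s g + ind sᶜ g = g := by
  apply Lp.ext
  filter_upwards [Lp.coeFn_add (ind s g) (ind sᶜ g), ind_coe s g, ind_coe sᶜ g] with x h1 h2 h3
  rw [h1, Pi.add_apply, h2, h3]
  by_cases h : x ∈ s <;> simp [h]

omit [NormedSpace ℝ E] in
lemma norm_ind_add (s : Set X) (g : Lp E 1 ν) : ‖ind s g‖ + ‖ind sᶜ g‖ = ‖g‖ := by
  rw [norm_ind, norm_ind, L1.norm_eq_integral_norm]
  exact integral_add_compl (meas s) (L1.integrable_coeFn g).norm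

theorem finite_supp (T : Lp E 1 ν →L[ℝ] Lp F 1 ν) (k : ℝ)
    (hT : ∀ (x : X) (g : Lp E 1 ν), (∀ᵐ z ∂ν, z ∉ ({x} : Set X) → g z = 0) → ‖T g‖ ≤ k * ‖g‖)
    (s : Finset X) : ∀ g : Lp E 1 ν, (∀ᵐ z ∂ν, z ∉ s → g z = 0) → ‖T g‖ ≤ k * ‖g‖ := by
  classical
  induction s using Finset.induction_on with
  | empty =>
    intro g hg
    have : g = 0 := by
      apply Lp.ext
      filter_upwards [hg, Lp.coeFn_zero E 1 ν] with z hz h0
      rw [h0]
      exact hz (by simp)
    simp [this]
  | insert x s hx ih =>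
    intro g hg
    rw [← ind_add {x} g, map_add, ind_add, ← norm_ind_add {x} g, mul_add]
    refine (norm_add_le _ _).trans (add_le_add (hT x _ ?_) (ih _ ?_))
    · filter_upwards [ind_coe {x} g] with z hz h
      rw [hz]
      simp only [Set.indicator, h, if_false]
    · filter_upwards [ind_coe {x}ᶜ g, hg] with z hz h1 h
      rw [hz]
      by_cases hzx : z = x
      · simp [hzx]
      · rw [Set.indicator_of_mem (by simpa using hzx)]
        apply h1
        rw [Finset.mem_insert]
        tauto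

theorem all_supp (T : Lp E 1 ν →L[ℝ] Lp F 1 ν) (k : ℝ)
    (hT : ∀ (x : X) (g : Lp E 1 ν), (∀ᵐ z ∂ν, z ∉ ({x} : Set X) → g z = 0) → ‖T g‖ ≤ k * ‖g‖)
    (g : Lp E 1 ν) : ‖T g‖ ≤ k * ‖g‖ := by
  classical
  obtain ⟨f, hf⟩ := Countable.exists_injective_nat X
  let s : ℕ → Set X := fun n => {x | f x < n}
  have hs : ∀ n, (s n).Finite := fun n => (Set.finite_Iio n).preimage hf.injOn
  have h1 : Filter.Tendsto (fun n => ‖ind (s n)ᶜ g‖) Filter.atTop (nhds 0) := by
    simp_rw [norm_ind]
    have h2 := tendsto_setIntegral_of_antitone (μ := ν) (f := fun x => ‖g x‖)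
      (s := fun n => (s n)ᶜ) (fun n => meas _) (by
        intro n m hnm x hx hx'
        exact hx (lt_of_lt_of_le hx' hnm))
      ⟨0, (L1.integrable_coeFn g).norm.integrableOn⟩
    have h3 : ⋂ n, (s n)ᶜ = ∅ := by
      rw [Set.eq_empty_iff_forall_notMem]
      intro x hx
      rw [Set.mem_iInter] at hx
      exact hx (f x + 1) (Nat.lt_succ_self _)
    rw [h3] at h2
    simpa using h2
  have h2 : Filter.Tendsto (fun n => ind (s n) g) Filter.atTop (nhds g) := by
    rw [tendsto_iff_norm_sub_tendsto_zero]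
    refine h1.congr (fun n => ?_)
    have h5 : ind (s n) g - g = - ind (s n)ᶜ g := by
      have := ind_add (s n) g
      rw [eq_comm, neg_eq_iff_eq_neg, neg_sub, eq_sub_iff_add_eq, add_comm]
      exact this
    rw [h5, norm_neg]
  have h3 : ∀ n, ‖T (ind (s n) g)‖ ≤ k * ‖ind (s n) g‖ := by
    intro n
    apply finite_supp T k hT (hs n).toFinset
    filter_upwards [ind_coe (s n) g] with z hz h
    rw [hz]
    rw [Set.Finite.mem_toFinset] at h
    simp [h]
  exact le_of_tendsto_of_tendsto' ((T.continuous.tendsto _).comp h2).norm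
    ((h2.norm).const_mul k) h3

/-- an operator on `L¹` almost attains its norm at a function supported at one point -/
theorem exists_point [Nontrivial E] (hfin : ∀ x, ν {x} ≠ ⊤) (hν : ν ≠ 0)
    (T : Lp E 1 ν →L[ℝ] Lp F 1 ν) :
    ∃ ξ : Lp E 1 ν, ξ ≠ 0 ∧ (∃ x : X, ∀ᵐ z ∂ν, z ∉ ({x} : Set X) → ξ z = 0) ∧
      1 / 2 * ‖T‖ * ‖ξ‖ ≤ ‖T ξ‖ := by
  classical
  by_cases h0 : ‖T‖ = 0
  · obtain ⟨x, hx⟩ : ∃ x, ν {x} ≠ 0 := by
      by_contra hcon
      push Not at hcon
      apply hν
      rw [← Measure.measure_univ_eq_zero, ← Set.iUnion_of_singleton X]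
      exact measure_iUnion_null hcon
    obtain ⟨e, he⟩ := exists_ne (0 : E)
    refine ⟨indicatorConstLp 1 (measurableSet_singleton x) (hfin x) e, ?_, ⟨x, ?_⟩, ?_⟩
    · intro hcon
      have h1 := norm_indicatorConstLp (p := 1) (μ := ν) (hs := measurableSet_singleton x)
        (hμs := hfin x) (c := e) one_ne_zero ENNReal.one_ne_top
      rw [hcon, norm_zero] at h1
      have h2 : 0 < ν.real {x} := ENNReal.toReal_pos hx (hfin x)
      have h3 : 0 < ‖e‖ := norm_pos_iff.2 he
      have : 0 < ‖e‖ * ν.real {x} ^ (1 / (1:ℝ≥0∞).toReal) := by positivity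
      linarith
    · filter_upwards [indicatorConstLp_coeFn (p := 1) (μ := ν) (hs := measurableSet_singleton x)
        (hμs := hfin x) (c := e)] with z hz h
      rw [hz]
      simp only [Set.indicator, h, if_false]
    · rw [h0]; simp
  · by_contra hcon
    push Not at hcon
    have hpos : 0 < ‖T‖ := lt_of_le_of_ne (norm_nonneg _) (Ne.symm h0)
    have h1 : ‖T‖ ≤ 1 / 2 * ‖T‖ := by
      apply T.opNorm_le_bound (by positivity)
      apply all_supp
      intro x g hg
      by_cases hg0 : g = 0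
      · simp [hg0]
      · exact (hcon g hg0 ⟨x, hg⟩).le
    linarith

end Pool.Agent.U705.ONL
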