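import Pool.Agent.U705.JMat

/-!
# The norm of `CStarMatrix` over an algebra of functions on a discrete space
-/

set_option autoImplicit false
set_option linter.unusedSectionVars false
set_option linter.unusedVariables false

open scoped InnerProductSpace ComplexConjugate CStarMatrix WithCStarModule

namespace Pool.Agent.U705

noncomputable section

/-- Characters and points of an algebra of functions on the set `I`. -/
structure Pts (I A : Type*) [NonUnitalCStarAlgebra A] where
  ev : I → A →⋆ₙₐ[ℂ] ℂ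
  d : I → A
  ev_self : ∀ i, ev i (d i) = 1
  ev_ne : ∀ i j, i ≠ j → ev i (d j) = 0
  sep : ∀ a b : A, (∀ i, ev i a = ev i b) → a = b
  norm_d : ∀ i, ‖d i‖ ≤ 1

variable {I A : Type*} [NonUnitalCStarAlgebra A] [PartialOrder A] [StarOrderedRing A]
variable {m : Type*} [Fintype m]

theorem ev_le (e : A →⋆ₙₐ[ℂ] ℂ) (a : A) : ‖e a‖ ≤ ‖a‖ :=
  NonUnitalStarAlgHom.norm_apply_le e a

theorem row_bound (T : Pts I A) (i : I) (M : CStarMatrix m m A) (v : m → ℂ) :
    ∑ j, ‖∑ k, v k * T.ev i (M k j)‖ ^ 2 ≤ ‖M‖ ^ 2 * ∑ k, ‖v k‖ ^ 2 := by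
  set w : C⋆ᵐᵒᵈ(A, m → A) := (WithCStarModule.equiv A (m → A)).symm (fun k => v k • T.d i) with hw
  have h1 : ‖w‖ ^ 2 ≤ ∑ k, ‖v k‖ ^ 2 := by
    rw [WithCStarModule.pi_norm_sq]
    refine (norm_sum_le _ _).trans (Finset.sum_le_sum fun k _ => ?_)
    rw [WithCStarModule.inner_def]
    have : w k = v k • T.d i := rfl
    rw [this, CStarRing.norm_self_mul_star, norm_smul, ← pow_two, mul_pow]
    have h0 := norm_nonneg (T.d i)
    have h2 := T.norm_d i
    have : ‖T.d i‖ ^ 2 ≤ 1 := by nlinarith
    nlinarith [sq_nonneg ‖v k‖]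
  have h2 : ‖CStarMatrix.toCLM M w‖ ≤ ‖M‖ * ‖w‖ := by
    rw [CStarMatrix.norm_def]
    exact (CStarMatrix.toCLM M).le_opNorm w
  have h3 : ∑ j, ‖∑ k, v k * T.ev i (M k j)‖ ^ 2 ≤ ‖CStarMatrix.toCLM M w‖ ^ 2 := by
    rw [WithCStarModule.pi_norm_sq]
    have h4 : ((∑ j, ‖∑ k, v k * T.ev i (M k j)‖ ^ 2 : ℝ) : ℂ) =
        T.ev i (∑ j, ⟪CStarMatrix.toCLM M w j, CStarMatrix.toCLM M w j⟫_A) := by
      rw [map_sum]
      push_cast
      refine Finset.sum_congr rfl fun j _ => ?_
      rw [WithCStarModule.inner_def, map_mul, map_star]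
      have h5 : T.ev i (CStarMatrix.toCLM M w j) = ∑ k, v k * T.ev i (M k j) := by
        have : CStarMatrix.toCLM M w j = ∑ k, w k * M k j := by
          rw [CStarMatrix.toCLM_apply_eq_sum]
          rfl
        rw [this, map_sum]
        refine Finset.sum_congr rfl fun k _ => ?_
        have : w k = v k • T.d i := rfl
        rw [this, smul_mul_assoc, map_smul, map_mul, T.ev_self, one_mul, smul_eq_mul]
      rw [h5]
      rw [show star (∑ k, v k * T.ev i (M k j)) = conj (∑ k, v k * T.ev i (M k j)) from rfl,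
        Complex.mul_conj, Complex.normSq_eq_norm_sq]
      push_cast
      rfl
    have h6 := ev_le (T.ev i) (∑ j, ⟪CStarMatrix.toCLM M w j, CStarMatrix.toCLM M w j⟫_A)
    rw [← h4, Complex.norm_real, Real.norm_eq_abs] at h6
    exact (le_abs_self _).trans h6
  refine h3.trans ?_
  calc ‖CStarMatrix.toCLM M w‖ ^ 2 ≤ (‖M‖ * ‖w‖) ^ 2 := by gcongr
    _ = ‖M‖ ^ 2 * ‖w‖ ^ 2 := by ring
    _ ≤ _ := by gcongr

theorem norm_star_M (M : CStarMatrix m m A) : ‖star M‖ = ‖M‖ := norm_star M

theorem opLe_ev (T : Pts I A) (i : I) (M : CStarMatrix m m A) :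
    OpLe (fun k j => T.ev i (M k j)) ‖M‖ := by
  intro x
  have h := row_bound T i (star M) (fun k => conj (x k))
  rw [norm_star_M] at h
  refine le_trans (le_of_eq ?_) (h.trans (le_of_eq ?_))
  · refine Finset.sum_congr rfl fun k _ => ?_
    have : ∑ j, conj (x j) * T.ev i ((star M) j k) = conj (∑ j, T.ev i (M k j) * x j) := by
      rw [map_sum]
      refine Finset.sum_congr rfl fun j _ => ?_
      rw [CStarMatrix.star_apply, map_star, map_mul, mul_comm]
      rfl
    rw [this, RCLike.norm_conj]
  · simp [RCLike.norm_conj]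

theorem opLe_ev' (T : Pts I A) (i : I) (M : CStarMatrix m m A) :
    OpLe (adjM fun k j => T.ev i (M k j)) ‖M‖ := by
  have h := opLe_ev T i (star M)
  rw [norm_star_M] at h
  have e : (adjM fun k j => T.ev i (M k j)) = fun k j => T.ev i ((star M) k j) := by
    funext k j
    rw [adjM, CStarMatrix.star_apply, map_star]
    rfl
  rw [e]
  exact h

theorem norm_le_one_of_pi (M : CStarMatrix m m A) (h : M * star M * M = M) : ‖M‖ ≤ 1 := by
  have h1 : ‖M * star M‖ = ‖M‖ * ‖M‖ := CStarRing.norm_self_mul_star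
  have h2 : ‖(M * star M) * star (M * star M)‖ = ‖M * star M‖ * ‖M * star M‖ :=
    CStarRing.norm_self_mul_star
  have h3 : (M * star M) * star (M * star M) = M * star M := by
    rw [star_mul, star_star, ← mul_assoc, h]
  rw [h3, h1] at h2
  by_contra hc
  push Not at hc
  have h4 : 1 < ‖M‖ * ‖M‖ := by nlinarith
  have h5 : ‖M‖ * ‖M‖ * 1 < ‖M‖ * ‖M‖ * (‖M‖ * ‖M‖) := by
    apply mul_lt_mul_of_pos_left h4
    linarith
  linarith

/-- a matrix given by its entries -/
def mkM (F : m → m → A) : CStarMatrix m m A := CStarMatrix.ofMatrix (Matrix.of F)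

theorem mkM_apply (F : m → m → A) (i j : m) : mkM F i j = F i j := rfl

/-- A sufficient condition for `‖mkM F‖ ≤ 1`. -/
theorem norm_mkM_le (T : Pts I A) (F : m → m → A)
    (h : ∀ s i j, ∑ k, (∑ l, T.ev s (F i l) * conj (T.ev s (F k l))) * T.ev s (F k j) =
      T.ev s (F i j)) : ‖mkM F‖ ≤ 1 := by
  apply norm_le_one_of_pi
  ext i j
  apply T.sep
  intro s
  rw [CStarMatrix.mul_apply, map_sum, mkM_apply, ← h s i j]
  refine Finset.sum_congr rfl fun k _ => ?_
  rw [map_mul, mkM_apply, CStarMatrix.mul_apply, map_sum]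
  congr 1
  refine Finset.sum_congr rfl fun l _ => ?_
  rw [map_mul, mkM_apply, CStarMatrix.star_apply, map_star, mkM_apply]
  rfl

/-- The matrix with the row `d (e 0), …` in the place `i₀`. -/
theorem row_pi (T : Pts I A) [DecidableEq m] (i₀ : m) (e : m → I) (he : Function.Injective e) :
    ‖mkM (fun i k => if i = i₀ then T.d (e k) else 0)‖ ≤ 1 := by
  classical
  refine norm_mkM_le T _ fun s i j => ?_
  have h0 : ∀ (i k : m), T.ev s (if i = i₀ then T.d (e k) else 0) =
      if i = i₀ then (if s = e k then 1 else 0) else 0 := by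
    intro i k
    split_ifs with h1 h2
    · rw [h2, T.ev_self]
    · exact T.ev_ne _ _ h2
    · exact map_zero _
  simp only [h0]
  rw [Finset.sum_eq_single i₀]
  · by_cases hi : i = i₀
    · simp only [hi, if_true]
      by_cases hs : s = e j
      · rw [Finset.sum_eq_single j]
        · simp [hs]
        · intro b _ hb
          have : s ≠ e b := fun h => hb (he (h.symm.trans hs))
          simp [this]
        · intro h
          exact absurd (Finset.mem_univ _) h
      · simp [hs]
    · simp [hi]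
  · intro b _ hb
    simp [hb]
  · intro h
    exact absurd (Finset.mem_univ _) h

/-- A partial permutation matrix with phases. -/
theorem perm_pi (T : Pts I A) (c : m → m → ℂ) (hc : ∀ k t, c k t * conj (c k t) = 1)
    (e : m → m → I) (h1 : ∀ k t t', e k t = e k t' → t = t')
    (h2 : ∀ k k' t, e k t = e k' t → k = k') :
    ‖mkM (fun k t => c k t • T.d (e k t))‖ ≤ 1 := by
  classical
  refine norm_mkM_le T _ fun s k t => ?_
  have h0 : ∀ (k t : m), T.ev s (c k t • T.d (e k t)) = if s = e k t then c k t else 0 := by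
    intro k t
    rw [map_smul]
    split_ifs with h
    · rw [h, T.ev_self, smul_eq_mul, mul_one]
    · rw [T.ev_ne _ _ h, smul_zero]
  simp only [h0]
  rw [Finset.sum_eq_single k]
  · by_cases hs : s = e k t
    · rw [Finset.sum_eq_single t]
      · rw [if_pos hs, hc, one_mul]
      · intro t' _ ht'
        have : s ≠ e k t' := fun h => ht' (h1 k t' t (h.symm.trans hs))
        rw [if_neg this, zero_mul]
      · intro h
        exact absurd (Finset.mem_univ _) h
    · rw [if_neg hs, mul_zero]
  · intro k' _ hk'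
    by_cases hs : s = e k' t
    · have : ∑ l, (if s = e k l then c k l else 0) * conj (if s = e k' l then c k' l else 0) = 0 := by
        refine Finset.sum_eq_zero fun l _ => ?_
        by_cases hl : s = e k' l
        · have hlt : l = t := h1 k' l t (hl.symm.trans hs)
          subst hlt
          have : s ≠ e k l := fun h => hk' (h2 k k' l (h.symm.trans hs)).symm
          rw [if_neg this, zero_mul]
        · rw [if_neg hl, map_zero, mul_zero]
      rw [this, zero_mul]
    · rw [if_neg hs, mul_zero]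
  · intro h
    exact absurd (Finset.mem_univ _) h

end

end Pool.Agent.U705
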