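import Mathlib

/-!
# A bilinear form with a quadratic phase: the basic inequality

`p` is an odd prime, `ψ` the standard additive character of `ZMod p`. Let `f, g` be two families of
operators on an inner product space `V`, indexed by `ZMod p`, such that the operators `f s` and their
adjoints `f' s` commute with the operators `g r` and their adjoints `g' r`. If `‖f s‖ ≤ α` and
`‖g r‖ ≤ β`, then the row with the entries `F_t = ∑ s, ψ (-t²s) f s g (t - s)` has norm at most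
`p (2p)^(1/4) α β`.
-/

set_option autoImplicit false

open scoped InnerProductSpace ComplexConjugate

namespace Pool.Agent.U705

noncomputable section

variable {p : ℕ} [Fact p.Prime]

/-- the standard character -/
abbrev psi (x : ZMod p) : ℂ := ZMod.stdAddChar x

theorem psi_zero : psi (0 : ZMod p) = 1 := AddChar.map_zero_eq_one _

theorem psi_add (x y : ZMod p) : psi (x + y) = psi x * psi y := AddChar.map_add_eq_mul _ _ _

theorem conj_psi (x : ZMod p) : conj (psi x) = psi (-x) := by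
  rw [psi, psi, AddChar.map_neg_eq_conj]

theorem psi_mul_conj (x : ZMod p) : psi x * psi (-x) = 1 := by
  rw [← psi_add, add_neg_cancel, psi_zero]

theorem sum_psi (b : ZMod p) : ∑ x : ZMod p, psi (x * b) = if b = 0 then (p : ℂ) else 0 := by
  have h := AddChar.sum_mulShift (ψ := (ZMod.stdAddChar (N := p))) b (ZMod.isPrimitive_stdAddChar p)
  rw [ZMod.card] at h
  unfold psi
  rw [h]
  split_ifs <;> simp

/-- For `u ≠ 0` and `p` odd the map `t ↦ (t+u)² - t²` is a bijection. -/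
theorem bij_quad (hp : p ≠ 2) {u : ZMod p} (hu : u ≠ 0) :
    Function.Bijective (fun t : ZMod p => (t + u) ^ 2 - t ^ 2) := by
  have h2 : (2 : ZMod p) ≠ 0 := by
    intro h
    have h' : ((2 : ℕ) : ZMod p) = 0 := by exact_mod_cast h
    rw [ZMod.natCast_eq_zero_iff] at h'
    have := (Nat.prime_dvd_prime_iff_eq (Fact.out : p.Prime) Nat.prime_two).1 h'
    exact hp this
  rw [← Finite.injective_iff_bijective]
  intro a b hab
  have h3 : (2 : ZMod p) * u * (a - b) = 0 := by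
    have : (a + u) ^ 2 - a ^ 2 = (b + u) ^ 2 - b ^ 2 := hab
    linear_combination this
  rcases mul_eq_zero.1 h3 with h | h
  · rcases mul_eq_zero.1 h with h | h
    · exact absurd h h2
    · exact absurd h hu
  · exact sub_eq_zero.1 h

theorem sum_quad (hp : p ≠ 2) {u : ZMod p} (hu : u ≠ 0) (c : ZMod p) :
    ∑ t : ZMod p, psi (((t + u) ^ 2 - t ^ 2) * c) = if c = 0 then (p : ℂ) else 0 := by
  rw [← sum_psi c]
  exact Fintype.sum_bijective _ (bij_quad hp hu) _ _ fun t => rfl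

variable {V : Type*} [NormedAddCommGroup V] [InnerProductSpace ℂ V]

/-- the expansion of the square of the norm of a sum -/
theorem inner_sum_sum {ι : Type*} [Fintype ι] (c : ι → ℂ) (v : ι → V) :
    ⟪∑ t, c t • v t, ∑ t, c t • v t⟫_ℂ = ∑ t, ∑ t', conj (c t) * c t' * ⟪v t, v t'⟫_ℂ := by
  rw [sum_inner]
  refine Finset.sum_congr rfl fun t _ => ?_
  rw [inner_sum]
  refine Finset.sum_congr rfl fun t' _ => ?_
  rw [inner_smul_left, inner_smul_right]
  ring

/-- The sum of the squares of the norms of the vectors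
`W s r = ∑ t, ψ(t²(s-r)) G (t-r) (t-s)`. -/
theorem sum_W (hp : p ≠ 2) (G : ZMod p → ZMod p → V) :
    ∑ s : ZMod p, ∑ r : ZMod p,
      ⟪∑ t : ZMod p, psi (t ^ 2 * (s - r)) • G (t - r) (t - s),
        ∑ t : ZMod p, psi (t ^ 2 * (s - r)) • G (t - r) (t - s)⟫_ℂ =
      (p : ℂ) * ∑ a : ZMod p, ∑ b : ZMod p, ⟪G a b, G a b⟫_ℂ +
        (p : ℂ) * (⟪∑ a, G a a, ∑ a, G a a⟫_ℂ - ∑ a, ⟪G a a, G a a⟫_ℂ) := by
  -- expand
  have h1 : ∀ s r : ZMod p,
      ⟪∑ t : ZMod p, psi (t ^ 2 * (s - r)) • G (t - r) (t - s),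
        ∑ t : ZMod p, psi (t ^ 2 * (s - r)) • G (t - r) (t - s)⟫_ℂ =
      ∑ t : ZMod p, ∑ u : ZMod p, psi (((t + u) ^ 2 - t ^ 2) * (s - r)) *
        ⟪G (t - r) (t - s), G (t + u - r) (t + u - s)⟫_ℂ := by
    intro s r
    rw [inner_sum_sum]
    refine Finset.sum_congr rfl fun t _ => ?_
    refine (Fintype.sum_equiv (Equiv.addLeft t) _ _ fun u => ?_).symm
    rw [Equiv.coe_addLeft, conj_psi, ← psi_add]
    congr 2
    ring
  simp_rw [h1]
  -- reorder the sums and substitute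
  have h2 : ∑ s : ZMod p, ∑ r : ZMod p, ∑ t : ZMod p, ∑ u : ZMod p,
      psi (((t + u) ^ 2 - t ^ 2) * (s - r)) *
        ⟪G (t - r) (t - s), G (t + u - r) (t + u - s)⟫_ℂ =
      ∑ u : ZMod p, ∑ a : ZMod p, ∑ b : ZMod p,
        (∑ t : ZMod p, psi (((t + u) ^ 2 - t ^ 2) * (a - b))) * ⟪G a b, G (a + u) (b + u)⟫_ℂ := by
    calc _ = ∑ s : ZMod p, ∑ t : ZMod p, ∑ r : ZMod p, ∑ u : ZMod p,
        psi (((t + u) ^ 2 - t ^ 2) * (s - r)) *
          ⟪G (t - r) (t - s), G (t + u - r) (t + u - s)⟫_ℂ :=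
          Finset.sum_congr rfl fun s _ => Finset.sum_comm
      _ = ∑ t : ZMod p, ∑ s : ZMod p, ∑ r : ZMod p, ∑ u : ZMod p,
        psi (((t + u) ^ 2 - t ^ 2) * (s - r)) *
          ⟪G (t - r) (t - s), G (t + u - r) (t + u - s)⟫_ℂ := Finset.sum_comm
      _ = ∑ t : ZMod p, ∑ b : ZMod p, ∑ a : ZMod p, ∑ u : ZMod p,
        psi (((t + u) ^ 2 - t ^ 2) * (a - b)) * ⟪G a b, G (a + u) (b + u)⟫_ℂ := by
          refine Finset.sum_congr rfl fun t _ => ?_
          refine Fintype.sum_equiv (Equiv.subLeft t) _ _ fun s => ?_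
          refine Fintype.sum_equiv (Equiv.subLeft t) _ _ fun r => ?_
          refine Finset.sum_congr rfl fun u _ => ?_
          simp only [Equiv.subLeft_apply]
          congr 3
          · ring
          · ring
          · ring
      _ = ∑ t : ZMod p, ∑ u : ZMod p, ∑ a : ZMod p, ∑ b : ZMod p,
        psi (((t + u) ^ 2 - t ^ 2) * (a - b)) * ⟪G a b, G (a + u) (b + u)⟫_ℂ := by
          refine Finset.sum_congr rfl fun t _ => ?_
          rw [Finset.sum_comm]
          rw [Finset.sum_congr rfl fun a (_ : a ∈ Finset.univ) =>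
            Finset.sum_comm (s := Finset.univ) (t := Finset.univ)
              (f := fun b u => psi (((t + u) ^ 2 - t ^ 2) * (a - b)) *
                ⟪G a b, G (a + u) (b + u)⟫_ℂ)]
          rw [Finset.sum_comm]
      _ = ∑ u : ZMod p, ∑ t : ZMod p, ∑ a : ZMod p, ∑ b : ZMod p,
        psi (((t + u) ^ 2 - t ^ 2) * (a - b)) * ⟪G a b, G (a + u) (b + u)⟫_ℂ := Finset.sum_comm
      _ = _ := by
          refine Finset.sum_congr rfl fun u _ => ?_
          rw [Finset.sum_comm]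
          refine Finset.sum_congr rfl fun a _ => ?_
          rw [Finset.sum_comm]
          refine Finset.sum_congr rfl fun b _ => ?_
          rw [Finset.sum_mul]
  rw [h2]
  rw [← Finset.add_sum_erase _ _ (Finset.mem_univ (0 : ZMod p))]
  congr 1
  · rw [Finset.mul_sum]
    refine Finset.sum_congr rfl fun a _ => ?_
    rw [Finset.mul_sum]
    refine Finset.sum_congr rfl fun b _ => ?_
    simp only [add_zero, sub_self, zero_mul]
    rw [psi_zero, Finset.sum_const, Finset.card_univ, ZMod.card]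
    simp
  · have h3 : ∀ u ∈ Finset.univ.erase (0 : ZMod p),
        ∑ a : ZMod p, ∑ b : ZMod p,
          (∑ t : ZMod p, psi (((t + u) ^ 2 - t ^ 2) * (a - b))) * ⟪G a b, G (a + u) (b + u)⟫_ℂ =
        (p : ℂ) * ∑ a : ZMod p, ⟪G a a, G (a + u) (a + u)⟫_ℂ := by
      intro u hu
      have hu0 : u ≠ 0 := (Finset.mem_erase.1 hu).1
      rw [Finset.mul_sum]
      refine Finset.sum_congr rfl fun a _ => ?_
      rw [Finset.sum_eq_single a]
      · rw [sum_quad hp hu0, if_pos (sub_self a)]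
      · intro b _ hb
        rw [sum_quad hp hu0, if_neg (sub_ne_zero.2 (Ne.symm hb)), zero_mul]
      · intro h
        exact absurd (Finset.mem_univ a) h
    rw [Finset.sum_congr rfl h3, ← Finset.mul_sum]
    congr 1
    have h4 : ⟪∑ a, G a a, ∑ a, G a a⟫_ℂ =
        ∑ u : ZMod p, ∑ a : ZMod p, ⟪G a a, G (a + u) (a + u)⟫_ℂ := by
      rw [sum_inner, Finset.sum_comm]
      refine Finset.sum_congr rfl fun a _ => ?_
      rw [inner_sum]
      refine (Fintype.sum_equiv (Equiv.addLeft a) _ _ fun u => ?_).symm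
      rw [Equiv.coe_addLeft]
    rw [h4, ← Finset.add_sum_erase _ _ (Finset.mem_univ (0 : ZMod p))]
    simp only [add_zero]
    ring

/-- The real form of the bound. -/
theorem sum_W_le (hp : p ≠ 2) (G : ZMod p → ZMod p → V) (K : ℝ)
    (hG : ∀ a b, ‖G a b‖ ≤ K) :
    ∑ s : ZMod p, ∑ r : ZMod p,
      ‖∑ t : ZMod p, psi (t ^ 2 * (s - r)) • G (t - r) (t - s)‖ ^ 2 ≤ 2 * (p : ℝ) ^ 3 * K ^ 2 := by
  have hK : 0 ≤ K := (norm_nonneg _).trans (hG 0 0)
  have h := sum_W hp G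
  have e : ∀ v : V, ⟪v, v⟫_ℂ = ((‖v‖ ^ 2 : ℝ) : ℂ) := by
    intro v
    rw [inner_self_eq_norm_sq_to_K]
    push_cast
    rfl
  simp only [e] at h
  have h' : ∑ s : ZMod p, ∑ r : ZMod p,
      ‖∑ t : ZMod p, psi (t ^ 2 * (s - r)) • G (t - r) (t - s)‖ ^ 2 =
      (p : ℝ) * ∑ a : ZMod p, ∑ b : ZMod p, ‖G a b‖ ^ 2 +
        (p : ℝ) * (‖∑ a, G a a‖ ^ 2 - ∑ a, ‖G a a‖ ^ 2) := by
    exact_mod_cast h
  rw [h']
  have hp0 : (0 : ℝ) ≤ p := Nat.cast_nonneg _
  have h1 : ∑ a : ZMod p, ∑ b : ZMod p, ‖G a b‖ ^ 2 ≤ (p : ℝ) * ((p : ℝ) * K ^ 2) := by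
    have : ∀ a ∈ (Finset.univ : Finset (ZMod p)), ∑ b : ZMod p, ‖G a b‖ ^ 2 ≤ (p : ℝ) * K ^ 2 := by
      intro a _
      have := Finset.sum_le_card_nsmul (Finset.univ : Finset (ZMod p)) (fun b => ‖G a b‖ ^ 2) (K ^ 2)
        (fun b _ => by
          have := hG a b
          have h0 := norm_nonneg (G a b)
          nlinarith)
      rw [Finset.card_univ, ZMod.card, nsmul_eq_mul] at this
      exact this
    have h2 := Finset.sum_le_card_nsmul _ _ _ this
    rw [Finset.card_univ, ZMod.card, nsmul_eq_mul] at h2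
    exact h2
  have h2 : ‖∑ a, G a a‖ ≤ (p : ℝ) * K := by
    have := norm_sum_le_of_le (Finset.univ : Finset (ZMod p)) (f := fun a => G a a)
      (fun a _ => hG a a)
    rw [Finset.sum_const, Finset.card_univ, ZMod.card, nsmul_eq_mul] at this
    exact this
  have h3 : ‖∑ a, G a a‖ ^ 2 ≤ ((p : ℝ) * K) ^ 2 := by
    gcongr
  have h4 : 0 ≤ ∑ a, ‖G a a‖ ^ 2 := Finset.sum_nonneg fun a _ => sq_nonneg _
  have h5 : (p : ℝ) * (∑ a : ZMod p, ∑ b : ZMod p, ‖G a b‖ ^ 2) ≤
      (p : ℝ) * ((p : ℝ) * ((p : ℝ) * K ^ 2)) := mul_le_mul_of_nonneg_left h1 hp0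
  have h6 : (p : ℝ) * (‖∑ a, G a a‖ ^ 2 - ∑ a, ‖G a a‖ ^ 2) ≤ (p : ℝ) * (((p : ℝ) * K) ^ 2) :=
    mul_le_mul_of_nonneg_left (by linarith) hp0
  nlinarith

end

end Pool.Agent.U705
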