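import Pool.Agent.U705.JRow

/-!
# Matrices over a commutative C*-algebra and the row inequality
-/

set_option autoImplicit false
set_option linter.unusedSectionVars false
set_option linter.unusedVariables false

open scoped InnerProductSpace ComplexConjugate CStarMatrix

namespace Pool.Agent.U705

noncomputable section

section ops

variable {m n : Type*} [Fintype m] [Fintype n]

/-- `α ⊗ 1` -/
def leftOp (α : m → m → ℂ) : EuclideanSpace ℂ (m × n) →ₗ[ℂ] EuclideanSpace ℂ (m × n) where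
  toFun x := WithLp.toLp 2 fun P => ∑ q, α P.1 q * x (q, P.2)
  map_add' x y := by
    ext P
    simp [mul_add, Finset.sum_add_distrib]
  map_smul' c x := by
    ext P
    simp only [PiLp.smul_apply, smul_eq_mul, RingHom.id_apply, Finset.mul_sum]
    exact Finset.sum_congr rfl fun q _ => by ring

/-- `1 ⊗ β` -/
def rightOp (β : n → n → ℂ) : EuclideanSpace ℂ (m × n) →ₗ[ℂ] EuclideanSpace ℂ (m × n) where
  toFun x := WithLp.toLp 2 fun P => ∑ q, β P.2 q * x (P.1, q)
  map_add' x y := by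
    ext P
    simp [mul_add, Finset.sum_add_distrib]
  map_smul' c x := by
    ext P
    simp only [PiLp.smul_apply, smul_eq_mul, RingHom.id_apply, Finset.mul_sum]
    exact Finset.sum_congr rfl fun q _ => by ring

theorem leftOp_apply (α : m → m → ℂ) (x : EuclideanSpace ℂ (m × n)) (P : m × n) :
    leftOp α x P = ∑ q, α P.1 q * x (q, P.2) := rfl

theorem rightOp_apply (β : n → n → ℂ) (x : EuclideanSpace ℂ (m × n)) (P : m × n) :
    rightOp β x P = ∑ q, β P.2 q * x (P.1, q) := rfl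

theorem op_comm (α : m → m → ℂ) (β : n → n → ℂ) (x : EuclideanSpace ℂ (m × n)) :
    leftOp α (rightOp β x) = rightOp β (leftOp α x) := by
  ext P
  rw [leftOp_apply, rightOp_apply]
  simp only [leftOp_apply, rightOp_apply, Finset.mul_sum]
  rw [Finset.sum_comm]
  exact Finset.sum_congr rfl fun q _ => Finset.sum_congr rfl fun r _ => by ring

/-- the adjoint matrix -/
def adjM {k : Type*} (α : k → k → ℂ) : k → k → ℂ := fun i j => conj (α j i)

theorem leftOp_adj (α : m → m → ℂ) (x y : EuclideanSpace ℂ (m × n)) :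
    ⟪leftOp α x, y⟫_ℂ = ⟪x, leftOp (adjM α) y⟫_ℂ := by
  rw [PiLp.inner_apply, PiLp.inner_apply, Fintype.sum_prod_type, Fintype.sum_prod_type]
  simp only [leftOp_apply, RCLike.inner_apply, map_sum, Finset.mul_sum, Finset.sum_mul, adjM,
    map_mul]
  rw [Finset.sum_comm]
  rw [Finset.sum_comm (s := (Finset.univ : Finset m)) (t := (Finset.univ : Finset n))
    (f := fun i j => ∑ q, conj (α q i) * y (q, j) * conj (x (i, j)))]
  refine Finset.sum_congr rfl fun j _ => ?_
  rw [Finset.sum_comm]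
  exact Finset.sum_congr rfl fun i _ => Finset.sum_congr rfl fun q _ => by ring

theorem rightOp_adj (β : n → n → ℂ) (x y : EuclideanSpace ℂ (m × n)) :
    ⟪rightOp β x, y⟫_ℂ = ⟪x, rightOp (adjM β) y⟫_ℂ := by
  rw [PiLp.inner_apply, PiLp.inner_apply, Fintype.sum_prod_type, Fintype.sum_prod_type]
  simp only [rightOp_apply, RCLike.inner_apply, map_sum, Finset.mul_sum, Finset.sum_mul, adjM,
    map_mul]
  refine Finset.sum_congr rfl fun j _ => ?_
  rw [Finset.sum_comm]
  exact Finset.sum_congr rfl fun i _ => Finset.sum_congr rfl fun q _ => by ring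

/-- the operator norm of a matrix is at most `K` -/
def OpLe {k : Type*} [Fintype k] (α : k → k → ℂ) (K : ℝ) : Prop :=
  ∀ x : k → ℂ, ∑ i, ‖∑ j, α i j * x j‖ ^ 2 ≤ K ^ 2 * ∑ j, ‖x j‖ ^ 2

theorem leftOp_norm_le {α : m → m → ℂ} {K : ℝ} (hK : 0 ≤ K) (h : OpLe α K)
    (x : EuclideanSpace ℂ (m × n)) : ‖leftOp α x‖ ≤ K * ‖x‖ := by
  refine le_of_sq_le_sq ?_ (by positivity)
  rw [mul_pow, EuclideanSpace.norm_sq_eq, EuclideanSpace.norm_sq_eq, Fintype.sum_prod_type,
    Fintype.sum_prod_type, Finset.sum_comm, Finset.sum_comm (s := (Finset.univ : Finset m)),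
    Finset.mul_sum]
  exact Finset.sum_le_sum fun j _ => h fun q => x (q, j)

theorem rightOp_norm_le {β : n → n → ℂ} {K : ℝ} (hK : 0 ≤ K) (h : OpLe β K)
    (x : EuclideanSpace ℂ (m × n)) : ‖rightOp β x‖ ≤ K * ‖x‖ := by
  refine le_of_sq_le_sq ?_ (by positivity)
  rw [mul_pow, EuclideanSpace.norm_sq_eq, EuclideanSpace.norm_sq_eq, Fintype.sum_prod_type,
    Fintype.sum_prod_type, Finset.mul_sum]
  exact Finset.sum_le_sum fun j _ => h fun q => x (j, q)

end ops

variable {m n : Type*} [Fintype m] [Fintype n]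
variable {p : ℕ} [Fact p.Prime]

/-- The pair of families given by matrix valued functions. -/
def mkPair (a : ZMod p → m → m → ℂ) (b : ZMod p → n → n → ℂ) {K L : ℝ} (hK : 0 ≤ K) (hL : 0 ≤ L)
    (ha : ∀ s, OpLe (a s) K) (ha' : ∀ s, OpLe (adjM (a s)) K)
    (hb : ∀ s, OpLe (b s) L) (hb' : ∀ s, OpLe (adjM (b s)) L) :
    Pair p (EuclideanSpace ℂ (m × n)) K L where
  f s := leftOp (a s)
  f' s := leftOp (adjM (a s))
  g s := rightOp (b s)
  g' s := rightOp (adjM (b s))
  adjf s x y := leftOp_adj _ _ _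
  adjg s x y := rightOp_adj _ _ _
  comm1 s r x := op_comm _ _ _
  comm2 s r x := op_comm _ _ _
  nf s x := leftOp_norm_le hK (ha s) x
  nf' s x := leftOp_norm_le hK (ha' s) x
  ng s x := rightOp_norm_le hL (hb s) x
  ng' s x := rightOp_norm_le hL (hb' s) x
  hα := hK
  hβ := hL

/-- The row inequality in coordinates. -/
theorem row_coord (hp : p ≠ 2) (a : ZMod p → m → m → ℂ) (b : ZMod p → n → n → ℂ) {K L : ℝ}
    (hK : 0 ≤ K) (hL : 0 ≤ L)
    (ha : ∀ s, OpLe (a s) K) (ha' : ∀ s, OpLe (adjM (a s)) K)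
    (hb : ∀ s, OpLe (b s) L) (hb' : ∀ s, OpLe (adjM (b s)) L)
    (x : m × n → ZMod p → ℂ) :
    ∑ P : m × n, ‖∑ Q : m × n, ∑ t : ZMod p,
        (∑ s : ZMod p, psi (-(t ^ 2 * s)) * (a s P.1 Q.1 * b (t - s) P.2 Q.2)) * x Q t‖ ^ 2 ≤
      (p : ℝ) ^ 2 * √(2 * p) * (K * L) ^ 2 * ∑ Q : m × n, ∑ t : ZMod p, ‖x Q t‖ ^ 2 := by
  have h := (mkPair a b hK hL ha ha' hb hb').row_le hp (fun t => WithLp.toLp 2 fun Q => x Q t)
  rw [EuclideanSpace.norm_sq_eq] at h
  have e1 : ∀ P : m × n, (∑ t : ZMod p, (mkPair a b hK hL ha ha' hb hb').F t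
      (WithLp.toLp 2 fun Q => x Q t)) P = ∑ Q : m × n, ∑ t : ZMod p,
        (∑ s : ZMod p, psi (-(t ^ 2 * s)) * (a s P.1 Q.1 * b (t - s) P.2 Q.2)) * x Q t := by
    intro P
    rw [WithLp.ofLp_sum, Finset.sum_apply, Finset.sum_comm]
    refine Finset.sum_congr rfl fun t _ => ?_
    unfold Pair.F
    rw [WithLp.ofLp_sum, Finset.sum_apply]
    simp only [mkPair, PiLp.smul_apply, smul_eq_mul, leftOp_apply, rightOp_apply, Finset.mul_sum,
      Finset.sum_mul, Fintype.sum_prod_type]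
    rw [Finset.sum_comm]
    refine Finset.sum_congr rfl fun q _ => ?_
    rw [Finset.sum_comm]
    refine Finset.sum_congr rfl fun r _ => Finset.sum_congr rfl fun s _ => ?_
    ring
  simp only [e1] at h
  refine h.trans (le_of_eq ?_)
  congr 1
  rw [Finset.sum_comm]
  refine Finset.sum_congr rfl fun t _ => ?_
  rw [EuclideanSpace.norm_sq_eq]

end

end Pool.Agent.U705
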