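import Pool.Agent.U705.JCS

/-!
# The block diagonal bilinear map
-/

set_option autoImplicit false
set_option linter.unusedSectionVars false
set_option linter.unusedVariables false

open scoped InnerProductSpace ComplexConjugate CStarMatrix WithCStarModule ENNReal

namespace Pool.Agent.U705

noncomputable section

/-- the odd primes -/
abbrev OP : Type := {p : ℕ // p.Prime ∧ p ≠ 2}

instance (q : OP) : Fact (q.1.Prime) := ⟨q.2.1⟩

/-- the index set: the disjoint union of the `ZMod p` -/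
def Idx : Type := Σ q : OP, ZMod q.1

/-- the point `s` of the block `q` -/
def ix (q : OP) (s : ZMod q.1) : Idx := ⟨q, s⟩

theorem ix_inj {q : OP} {s s' : ZMod q.1} (h : ix q s = ix q s') : s = s' := by
  unfold ix at h
  exact eq_of_heq (Sigma.mk.inj h).2

/-- the Hilbert space -/
abbrev HH : Type := lp (fun q : OP => EuclideanSpace ℂ (ZMod q.1)) 2

theorem HH_summable (x : HH) : Summable fun q => ‖x q‖ ^ 2 := by
  have h := (lp.memℓp x).summable (by norm_num)
  simpa using h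

theorem HH_norm_sq (x : HH) : ‖x‖ ^ 2 = ∑' q, ‖x q‖ ^ 2 := by
  have h := lp.norm_rpow_eq_tsum (p := 2) (by norm_num) x
  simpa using h

theorem HH_mem {y : ∀ q : OP, EuclideanSpace ℂ (ZMod q.1)} (h : Summable fun q => ‖y q‖ ^ 2) :
    Memℓp y 2 := by
  apply memℓp_gen
  simpa using h

/-- the normalising constant -/
def cc (q : OP) : ℝ := (√(√(2 * (q.1 : ℝ))))⁻¹

theorem p_pos (q : OP) : (0 : ℝ) < q.1 := by
  exact_mod_cast q.2.1.pos

theorem cc_pos (q : OP) : 0 < cc q := by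
  have := p_pos q
  unfold cc
  positivity

theorem cc_sq (q : OP) : cc q ^ 2 * √(2 * (q.1 : ℝ)) = 1 := by
  have h := p_pos q
  unfold cc
  rw [inv_pow, Real.sq_sqrt (Real.sqrt_nonneg _)]
  have : 0 < √(2 * (q.1 : ℝ)) := by positivity
  exact inv_mul_cancel₀ this.ne'

variable {A : Type*} [NonUnitalCStarAlgebra A] [PartialOrder A] [StarOrderedRing A]

/-- the coefficients -/
def phi (T : Pts Idx A) (q : OP) (f g : A) (t : ZMod q.1) : ℂ :=
  ((cc q / q.1 : ℝ) : ℂ) * ∑ s : ZMod q.1, psi (-(t ^ 2 * s)) * (T.ev (ix q s) f * T.ev (ix q (t - s)) g)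

theorem phi_add_left (T : Pts Idx A) (q : OP) (f f' g : A) (t : ZMod q.1) :
    phi T q (f + f') g t = phi T q f g t + phi T q f' g t := by
  unfold phi
  rw [← mul_add, ← Finset.sum_add_distrib]
  congr 1
  refine Finset.sum_congr rfl fun s _ => ?_
  rw [map_add]
  ring

theorem phi_add_right (T : Pts Idx A) (q : OP) (f g g' : A) (t : ZMod q.1) :
    phi T q f (g + g') t = phi T q f g t + phi T q f g' t := by
  unfold phi
  rw [← mul_add, ← Finset.sum_add_distrib]
  congr 1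
  refine Finset.sum_congr rfl fun s _ => ?_
  rw [map_add]
  ring

theorem phi_smul_left (T : Pts Idx A) (q : OP) (c : ℂ) (f g : A) (t : ZMod q.1) :
    phi T q (c • f) g t = c * phi T q f g t := by
  unfold phi
  rw [mul_left_comm]
  congr 1
  rw [Finset.mul_sum]
  refine Finset.sum_congr rfl fun s _ => ?_
  rw [map_smul, smul_eq_mul]
  ring

theorem phi_smul_right (T : Pts Idx A) (q : OP) (c : ℂ) (f g : A) (t : ZMod q.1) :
    phi T q f (c • g) t = c * phi T q f g t := by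
  unfold phi
  rw [mul_left_comm]
  congr 1
  rw [Finset.mul_sum]
  refine Finset.sum_congr rfl fun s _ => ?_
  rw [map_smul, smul_eq_mul]
  ring

/-- the row inequality for one block -/
theorem block_le' (T : Pts Idx A) (q : OP) {m n : Type*} [Fintype m] [Fintype n]
    (a : m → m → A) (b : n → n → A) {K L : ℝ} (hK : 0 ≤ K) (hL : 0 ≤ L)
    (ha : ∀ s, OpLe (fun k j => T.ev (ix q s) (a k j)) K)
    (ha' : ∀ s, OpLe (adjM fun k j => T.ev (ix q s) (a k j)) K)
    (hb : ∀ s, OpLe (fun k j => T.ev (ix q s) (b k j)) L)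
    (hb' : ∀ s, OpLe (adjM fun k j => T.ev (ix q s) (b k j)) L)
    (x : m × n → ZMod q.1 → ℂ) :
    ∑ P : m × n, ‖∑ Q : m × n, ∑ t : ZMod q.1, phi T q (a P.1 Q.1) (b P.2 Q.2) t * x Q t‖ ^ 2 ≤
      (K * L) ^ 2 * ∑ Q : m × n, ∑ t : ZMod q.1, ‖x Q t‖ ^ 2 := by
  have h := row_coord (p := q.1) q.2.2 (fun s k j => T.ev (ix q s) (a k j))
    (fun s k j => T.ev (ix q s) (b k j)) hK hL ha ha' hb hb' x
  have hp := p_pos q
  have hc := cc_pos q
  have e : ∀ P : m × n, ‖∑ Q : m × n, ∑ t : ZMod q.1, phi T q (a P.1 Q.1) (b P.2 Q.2) t * x Q t‖ ^ 2 =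
      (cc q / q.1) ^ 2 * ‖∑ Q : m × n, ∑ t : ZMod q.1,
        (∑ s : ZMod q.1, psi (-(t ^ 2 * s)) * (T.ev (ix q s) (a P.1 Q.1) *
          T.ev (ix q (t - s)) (b P.2 Q.2))) * x Q t‖ ^ 2 := by
    intro P
    have : ∑ Q : m × n, ∑ t : ZMod q.1, phi T q (a P.1 Q.1) (b P.2 Q.2) t * x Q t =
        ((cc q / q.1 : ℝ) : ℂ) * ∑ Q : m × n, ∑ t : ZMod q.1,
        (∑ s : ZMod q.1, psi (-(t ^ 2 * s)) * (T.ev (ix q s) (a P.1 Q.1) *
          T.ev (ix q (t - s)) (b P.2 Q.2))) * x Q t := by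
      rw [Finset.mul_sum]
      refine Finset.sum_congr rfl fun Q _ => ?_
      rw [Finset.mul_sum]
      refine Finset.sum_congr rfl fun t _ => ?_
      unfold phi
      ring
    rw [this, norm_mul, mul_pow, Complex.norm_real, Real.norm_eq_abs, sq_abs]
  rw [Finset.sum_congr rfl fun P _ => e P, ← Finset.mul_sum]
  calc _ ≤ (cc q / q.1) ^ 2 * ((q.1 : ℝ) ^ 2 * √(2 * q.1) * (K * L) ^ 2 *
        ∑ Q : m × n, ∑ t : ZMod q.1, ‖x Q t‖ ^ 2) := mul_le_mul_of_nonneg_left h (sq_nonneg _)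
    _ = (cc q ^ 2 * √(2 * q.1)) * ((K * L) ^ 2 * ∑ Q : m × n, ∑ t : ZMod q.1, ‖x Q t‖ ^ 2) := by
        field_simp
    _ = _ := by rw [cc_sq, one_mul]

theorem block_le (T : Pts Idx A) (q : OP) {m n : Type*} [Fintype m] [Fintype n]
    (a : CStarMatrix m m A) (b : CStarMatrix n n A) (x : m × n → ZMod q.1 → ℂ) :
    ∑ P : m × n, ‖∑ Q : m × n, ∑ t : ZMod q.1, phi T q (a P.1 Q.1) (b P.2 Q.2) t * x Q t‖ ^ 2 ≤
      (‖a‖ * ‖b‖) ^ 2 * ∑ Q : m × n, ∑ t : ZMod q.1, ‖x Q t‖ ^ 2 :=
  block_le' T q (fun i j => a i j) (fun i j => b i j) (norm_nonneg _) (norm_nonneg _)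
    (fun s => opLe_ev T _ a) (fun s => opLe_ev' T _ a)
    (fun s => opLe_ev T _ b) (fun s => opLe_ev' T _ b) x

theorem opLe_unit {c : ℂ} {K : ℝ} (h : ‖c‖ ≤ K) : OpLe (fun _ _ : Unit => c) K := by
  intro x
  simp only [Finset.univ_unique, Finset.sum_singleton, norm_mul, mul_pow]
  have := norm_nonneg c
  gcongr

theorem scalar_le (T : Pts Idx A) (q : OP) (f g : A) (x : ZMod q.1 → ℂ) :
    ‖∑ t : ZMod q.1, phi T q f g t * x t‖ ^ 2 ≤ (‖f‖ * ‖g‖) ^ 2 * ∑ t : ZMod q.1, ‖x t‖ ^ 2 := by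
  have h := block_le' T q (m := Unit) (n := Unit) (fun _ _ => f) (fun _ _ => g) (norm_nonneg f)
    (norm_nonneg g) (fun s => opLe_unit (ev_le _ _))
    (fun s => opLe_unit (c := conj (T.ev (ix q s) f)) (by rw [RCLike.norm_conj]; exact ev_le _ _))
    (fun s => opLe_unit (ev_le _ _))
    (fun s => opLe_unit (c := conj (T.ev (ix q s) g)) (by rw [RCLike.norm_conj]; exact ev_le _ _))
    (fun _ => x)
  simpa using h

/-- the operator on one block -/
def blk (T : Pts Idx A) (q : OP) (f g : A) (x : EuclideanSpace ℂ (ZMod q.1)) :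
    EuclideanSpace ℂ (ZMod q.1) :=
  (∑ t : ZMod q.1, phi T q f g t * x t) • EuclideanSpace.single 0 1

theorem norm_smul_single {q : OP} (c : ℂ) :
    ‖c • (EuclideanSpace.single 0 1 : EuclideanSpace ℂ (ZMod q.1))‖ = ‖c‖ := by
  rw [norm_smul]
  simp

theorem blk_norm_sq_le (T : Pts Idx A) (q : OP) (f g : A) (x : EuclideanSpace ℂ (ZMod q.1)) :
    ‖blk T q f g x‖ ^ 2 ≤ (‖f‖ * ‖g‖) ^ 2 * ‖x‖ ^ 2 := by
  unfold blk
  rw [norm_smul_single, EuclideanSpace.norm_sq_eq]
  exact scalar_le T q f g x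

/-- the operator -/
def PhiL (T : Pts Idx A) (f g : A) : HH →ₗ[ℂ] HH where
  toFun x := ⟨fun q => blk T q f g (x q), HH_mem (by
    refine Summable.of_nonneg_of_le (fun q => sq_nonneg _) (fun q => blk_norm_sq_le T q f g (x q)) ?_
    exact (HH_summable x).mul_left _)⟩
  map_add' x y := by
    ext q t
    simp only [blk, lp.coeFn_add, Pi.add_apply, PiLp.add_apply, PiLp.smul_apply, smul_eq_mul]
    rw [← add_mul, ← Finset.sum_add_distrib]
    congr 1
    exact Finset.sum_congr rfl fun s _ => by ring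
  map_smul' c x := by
    ext q t
    simp only [blk, lp.coeFn_smul, Pi.smul_apply, PiLp.smul_apply, smul_eq_mul, RingHom.id_apply]
    rw [← mul_assoc, Finset.mul_sum]
    congr 1
    exact Finset.sum_congr rfl fun s _ => by ring

theorem PhiL_apply (T : Pts Idx A) (f g : A) (x : HH) (q : OP) :
    (PhiL T f g x : HH) q = blk T q f g (x q) := rfl

theorem PhiL_bound (T : Pts Idx A) (f g : A) (x : HH) : ‖PhiL T f g x‖ ≤ (‖f‖ * ‖g‖) * ‖x‖ := by
  refine le_of_sq_le_sq ?_ (by positivity)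
  rw [HH_norm_sq, mul_pow, HH_norm_sq, ← tsum_mul_left]
  refine Summable.tsum_le_tsum (fun q => blk_norm_sq_le T q f g (x q)) (HH_summable _)
    ((HH_summable x).mul_left _)

/-- the bounded operator -/
def PhiC (T : Pts Idx A) (f g : A) : HH →L[ℂ] HH := (PhiL T f g).mkContinuous _ (PhiL_bound T f g)

theorem PhiC_apply (T : Pts Idx A) (f g : A) (x : HH) (q : OP) :
    (PhiC T f g x : HH) q = blk T q f g (x q) := rfl

/-- the bilinear map -/
def Phi (T : Pts Idx A) : A →ₗ[ℂ] A →ₗ[ℂ] (HH →L[ℂ] HH) :=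
  LinearMap.mk₂ ℂ (PhiC T)
    (fun f f' g => by
      ext x q t
      simp only [PhiC_apply, blk, _root_.add_apply, lp.coeFn_add, Pi.add_apply,
        PiLp.add_apply, PiLp.smul_apply, smul_eq_mul, phi_add_left]
      rw [← add_mul, ← Finset.sum_add_distrib]
      congr 1
      exact Finset.sum_congr rfl fun s _ => by ring)
    (fun c f g => by
      ext x q t
      simp only [PhiC_apply, blk, _root_.smul_apply, lp.coeFn_smul, Pi.smul_apply,
        PiLp.smul_apply, smul_eq_mul, phi_smul_left]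
      rw [← mul_assoc, Finset.mul_sum]
      congr 1
      exact Finset.sum_congr rfl fun s _ => by ring)
    (fun f g g' => by
      ext x q t
      simp only [PhiC_apply, blk, _root_.add_apply, lp.coeFn_add, Pi.add_apply,
        PiLp.add_apply, PiLp.smul_apply, smul_eq_mul, phi_add_right]
      rw [← add_mul, ← Finset.sum_add_distrib]
      congr 1
      exact Finset.sum_congr rfl fun s _ => by ring)
    (fun c f g => by
      ext x q t
      simp only [PhiC_apply, blk, _root_.smul_apply, lp.coeFn_smul, Pi.smul_apply,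
        PiLp.smul_apply, smul_eq_mul, phi_smul_right]
      rw [← mul_assoc, Finset.mul_sum]
      congr 1
      exact Finset.sum_congr rfl fun s _ => by ring)

theorem Phi_apply (T : Pts Idx A) (f g : A) (x : HH) (q : OP) :
    (Phi T f g x : HH) q = blk T q f g (x q) := rfl

/-- The bilinear map is jointly completely contractive. -/
theorem Phi_jcb (T : Pts Idx A) (n m : ℕ) (a : CStarMatrix (Fin n) (Fin n) A)
    (b : CStarMatrix (Fin m) (Fin m) A) (x : Fin n × Fin m → HH) :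
    ∑ P : Fin n × Fin m, ‖∑ Q : Fin n × Fin m, Phi T (a P.1 Q.1) (b P.2 Q.2) (x Q)‖ ^ 2 ≤
      (1 * ‖a‖ * ‖b‖) ^ 2 * ∑ Q : Fin n × Fin m, ‖x Q‖ ^ 2 := by
  simp only [HH_norm_sq]
  rw [← Summable.tsum_finsetSum (fun P _ => HH_summable _),
    ← Summable.tsum_finsetSum (fun P _ => HH_summable _), ← tsum_mul_left]
  refine Summable.tsum_le_tsum (fun q => ?_) (summable_sum fun P _ => HH_summable _)
    ((summable_sum fun P _ => HH_summable _).mul_left _)
  have h := block_le T q a b (fun Q t => x Q q t)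
  rw [one_mul]
  refine le_trans (le_of_eq ?_) (h.trans (le_of_eq ?_))
  · refine Finset.sum_congr rfl fun P _ => ?_
    rw [lp.coeFn_sum, Finset.sum_apply]
    simp only [Phi_apply, blk]
    rw [← Finset.sum_smul, norm_smul_single]
  · congr 1
    refine Finset.sum_congr rfl fun Q _ => ?_
    rw [EuclideanSpace.norm_sq_eq]

end

end Pool.Agent.U705
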