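import Pool.Agent.U705.JCore

/-!
# The norm of the row `(F_t)`
-/

set_option autoImplicit false
set_option linter.unusedSectionVars false

open scoped InnerProductSpace ComplexConjugate

namespace Pool.Agent.U705

noncomputable section

variable {p : ℕ} [Fact p.Prime]
variable {V : Type*} [NormedAddCommGroup V] [InnerProductSpace ℂ V]

/-- Two families of operators, with adjoints, which commute with each other. -/
structure Pair (p : ℕ) (V : Type*) [NormedAddCommGroup V] [InnerProductSpace ℂ V]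
    (α β : ℝ) where
  f : ZMod p → V →ₗ[ℂ] V
  f' : ZMod p → V →ₗ[ℂ] V
  g : ZMod p → V →ₗ[ℂ] V
  g' : ZMod p → V →ₗ[ℂ] V
  adjf : ∀ s x y, ⟪f s x, y⟫_ℂ = ⟪x, f' s y⟫_ℂ
  adjg : ∀ s x y, ⟪g s x, y⟫_ℂ = ⟪x, g' s y⟫_ℂ
  comm1 : ∀ s r x, f s (g' r x) = g' r (f s x)
  comm2 : ∀ s r x, f' s (g' r x) = g' r (f' s x)
  nf : ∀ s x, ‖f s x‖ ≤ α * ‖x‖
  nf' : ∀ s x, ‖f' s x‖ ≤ α * ‖x‖
  ng : ∀ s x, ‖g s x‖ ≤ β * ‖x‖
  ng' : ∀ s x, ‖g' s x‖ ≤ β * ‖x‖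
  hα : 0 ≤ α
  hβ : 0 ≤ β

variable {α β : ℝ} (P : Pair p V α β)

/-- `p F_t^* η` -/
def Pair.y (t : ZMod p) (η : V) : V := ∑ s : ZMod p, psi (t ^ 2 * s) • P.f' s (P.g' (t - s) η)

theorem Pair.adjf' (s : ZMod p) (x y : V) : ⟪P.f' s x, y⟫_ℂ = ⟪x, P.f s y⟫_ℂ := by
  have h := P.adjf s y x
  have h' := congrArg conj h
  rw [inner_conj_symm, inner_conj_symm] at h'
  exact h'.symm

theorem Pair.adjg' (s : ZMod p) (x y : V) : ⟪P.g' s x, y⟫_ℂ = ⟪x, P.g s y⟫_ℂ := by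
  have h := P.adjg s y x
  have h' := congrArg conj h
  rw [inner_conj_symm, inner_conj_symm] at h'
  exact h'.symm

theorem Pair.inner_y (η : V) :
    ∑ t : ZMod p, ⟪P.y t η, P.y t η⟫_ℂ =
      ∑ s : ZMod p, ∑ r : ZMod p,
        ⟪∑ t : ZMod p, psi (t ^ 2 * (s - r)) • P.g (t - r) (P.g' (t - s) η),
          P.f s (P.f' r η)⟫_ℂ := by
  have h1 : ∀ t : ZMod p, ⟪P.y t η, P.y t η⟫_ℂ =
      ∑ s : ZMod p, ∑ r : ZMod p, conj (psi (t ^ 2 * (s - r))) *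
        ⟪P.g (t - r) (P.g' (t - s) η), P.f s (P.f' r η)⟫_ℂ := by
    intro t
    unfold Pair.y
    rw [inner_sum_sum]
    refine Finset.sum_congr rfl fun s _ => Finset.sum_congr rfl fun r _ => ?_
    rw [P.adjf', P.comm2, P.comm1, P.adjg, conj_psi, conj_psi, ← psi_add]
    congr 2
    ring
  simp_rw [h1]
  rw [Finset.sum_comm]
  refine Finset.sum_congr rfl fun s _ => ?_
  rw [Finset.sum_comm]
  refine Finset.sum_congr rfl fun r _ => ?_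
  rw [sum_inner]
  refine Finset.sum_congr rfl fun t _ => ?_
  rw [inner_smul_left]

theorem ee (v : V) : ⟪v, v⟫_ℂ = ((‖v‖ ^ 2 : ℝ) : ℂ) := by
  rw [inner_self_eq_norm_sq_to_K]
  push_cast
  rfl

/-- `∑ ‖p F_t^* η‖² ≤ p² √(2p) α² β² ‖η‖²` -/
theorem Pair.sum_y_le (hp : p ≠ 2) (η : V) :
    ∑ t : ZMod p, ‖P.y t η‖ ^ 2 ≤ (p : ℝ) ^ 2 * √(2 * p) * (α * β * ‖η‖) ^ 2 := by
  have hα := P.hα
  have hβ := P.hβ
  have hp0 : (0 : ℝ) ≤ p := Nat.cast_nonneg _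
  set W : ZMod p → ZMod p → V := fun s r =>
    ∑ t : ZMod p, psi (t ^ 2 * (s - r)) • P.g (t - r) (P.g' (t - s) η) with hW
  set Z : ZMod p → ZMod p → V := fun s r => P.f s (P.f' r η) with hZ
  have h1 := P.inner_y η
  simp only [ee] at h1
  have h2 : ∑ t : ZMod p, ‖P.y t η‖ ^ 2 ≤ ∑ s : ZMod p, ∑ r : ZMod p, ‖W s r‖ * ‖Z s r‖ := by
    have h3 : ‖((∑ t : ZMod p, ‖P.y t η‖ ^ 2 : ℝ) : ℂ)‖ ≤
        ∑ s : ZMod p, ∑ r : ZMod p, ‖W s r‖ * ‖Z s r‖ := by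
      have : ((∑ t : ZMod p, ‖P.y t η‖ ^ 2 : ℝ) : ℂ) = ∑ s : ZMod p, ∑ r : ZMod p, ⟪W s r, Z s r⟫_ℂ := by
        rw [← h1]
        push_cast
        rfl
      rw [this]
      refine (norm_sum_le _ _).trans (Finset.sum_le_sum fun s _ => ?_)
      refine (norm_sum_le _ _).trans (Finset.sum_le_sum fun r _ => ?_)
      exact norm_inner_le_norm _ _
    rw [Complex.norm_real, Real.norm_eq_abs] at h3
    exact (le_abs_self _).trans h3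
  have hZb : ∀ s r, ‖Z s r‖ ≤ α * (α * ‖η‖) := fun s r =>
    (P.nf s _).trans (mul_le_mul_of_nonneg_left (P.nf' r η) hα)
  have hWb : ∑ s : ZMod p, ∑ r : ZMod p, ‖W s r‖ ^ 2 ≤ 2 * (p : ℝ) ^ 3 * (β * (β * ‖η‖)) ^ 2 :=
    sum_W_le hp (fun a b => P.g a (P.g' b η)) (β * (β * ‖η‖)) fun a b =>
      (P.ng a _).trans (mul_le_mul_of_nonneg_left (P.ng' b η) hβ)
  have hZs : ∑ s : ZMod p, ∑ r : ZMod p, ‖Z s r‖ ^ 2 ≤ (p : ℝ) * ((p : ℝ) * (α * (α * ‖η‖)) ^ 2) := by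
    have : ∀ a ∈ (Finset.univ : Finset (ZMod p)), ∑ b : ZMod p, ‖Z a b‖ ^ 2 ≤
        (p : ℝ) * (α * (α * ‖η‖)) ^ 2 := by
      intro a _
      have := Finset.sum_le_card_nsmul (Finset.univ : Finset (ZMod p)) (fun b => ‖Z a b‖ ^ 2)
        ((α * (α * ‖η‖)) ^ 2) (fun b _ => by
          have := hZb a b
          have h0 := norm_nonneg (Z a b)
          gcongr)
      rw [Finset.card_univ, ZMod.card, nsmul_eq_mul] at this
      exact this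
    have h2 := Finset.sum_le_card_nsmul _ _ _ this
    rw [Finset.card_univ, ZMod.card, nsmul_eq_mul] at h2
    exact h2
  have hCS : (∑ s : ZMod p, ∑ r : ZMod p, ‖W s r‖ * ‖Z s r‖) ^ 2 ≤
      (∑ s : ZMod p, ∑ r : ZMod p, ‖W s r‖ ^ 2) * (∑ s : ZMod p, ∑ r : ZMod p, ‖Z s r‖ ^ 2) := by
    have := Finset.sum_mul_sq_le_sq_mul_sq (Finset.univ : Finset (ZMod p × ZMod p))
      (fun x => ‖W x.1 x.2‖) (fun x => ‖Z x.1 x.2‖)
    rw [Fintype.sum_prod_type, Fintype.sum_prod_type, Fintype.sum_prod_type] at this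
    exact this
  have hfin : (∑ s : ZMod p, ∑ r : ZMod p, ‖W s r‖ * ‖Z s r‖) ^ 2 ≤
      ((p : ℝ) ^ 2 * √(2 * p) * (α * β * ‖η‖) ^ 2) ^ 2 := by
    refine hCS.trans ?_
    refine (mul_le_mul hWb hZs (Finset.sum_nonneg fun _ _ => Finset.sum_nonneg fun _ _ =>
      sq_nonneg _) (by positivity)).trans (le_of_eq ?_)
    have hs : √(2 * (p : ℝ)) ^ 2 = 2 * p := Real.sq_sqrt (by positivity)
    calc 2 * (p : ℝ) ^ 3 * (β * (β * ‖η‖)) ^ 2 * (p * (p * (α * (α * ‖η‖)) ^ 2))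
        = (p : ℝ) ^ 4 * (2 * p) * (α * β * ‖η‖) ^ 4 := by ring
      _ = (p : ℝ) ^ 4 * √(2 * (p : ℝ)) ^ 2 * (α * β * ‖η‖) ^ 4 := by rw [hs]
      _ = _ := by ring
  have hfin2 := abs_le_of_sq_le_sq hfin (by positivity)
  exact h2.trans ((le_abs_self _).trans hfin2)

/-- `F_t` times `p` -/
def Pair.F (t : ZMod p) (x : V) : V := ∑ s : ZMod p, psi (-(t ^ 2 * s)) • P.f s (P.g (t - s) x)

theorem Pair.comm3 (s r : ZMod p) (x y : V) : ⟪P.f s (P.g r x), y⟫_ℂ = ⟪x, P.f' s (P.g' r y)⟫_ℂ := by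
  rw [P.adjf, P.adjg, P.comm2]

theorem Pair.inner_F (t : ZMod p) (x η : V) : ⟪P.F t x, η⟫_ℂ = ⟪x, P.y t η⟫_ℂ := by
  unfold Pair.F Pair.y
  rw [sum_inner, inner_sum]
  refine Finset.sum_congr rfl fun s _ => ?_
  rw [inner_smul_left, inner_smul_right, P.comm3, conj_psi, neg_neg]

/-- **The row inequality**: `‖∑ p F_t x_t‖² ≤ p² √(2p) α² β² ∑ ‖x_t‖²`. -/
theorem Pair.row_le (hp : p ≠ 2) (x : ZMod p → V) :
    ‖∑ t : ZMod p, P.F t (x t)‖ ^ 2 ≤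
      (p : ℝ) ^ 2 * √(2 * p) * (α * β) ^ 2 * ∑ t : ZMod p, ‖x t‖ ^ 2 := by
  set z : V := ∑ t : ZMod p, P.F t (x t) with hz
  have h1 : ((‖z‖ ^ 2 : ℝ) : ℂ) = ∑ t : ZMod p, ⟪x t, P.y t z⟫_ℂ := by
    rw [← ee]
    conv_lhs => rw [hz]
    rw [sum_inner]
    refine Finset.sum_congr rfl fun t _ => ?_
    rw [P.inner_F]
  have h2 : ‖z‖ ^ 2 ≤ ∑ t : ZMod p, ‖x t‖ * ‖P.y t z‖ := by
    have h3 : ‖((‖z‖ ^ 2 : ℝ) : ℂ)‖ ≤ ∑ t : ZMod p, ‖x t‖ * ‖P.y t z‖ := by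
      rw [h1]
      refine (norm_sum_le _ _).trans (Finset.sum_le_sum fun t _ => ?_)
      exact norm_inner_le_norm _ _
    rw [Complex.norm_real, Real.norm_eq_abs] at h3
    exact (le_abs_self _).trans h3
  have h3 : (‖z‖ ^ 2) ^ 2 ≤ (∑ t : ZMod p, ‖x t‖ ^ 2) * ∑ t : ZMod p, ‖P.y t z‖ ^ 2 := by
    refine le_trans ?_ (Finset.sum_mul_sq_le_sq_mul_sq (Finset.univ : Finset (ZMod p))
      (fun t => ‖x t‖) (fun t => ‖P.y t z‖))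
    gcongr
  have h4 := P.sum_y_le hp z
  have hX : 0 ≤ ∑ t : ZMod p, ‖x t‖ ^ 2 := Finset.sum_nonneg fun _ _ => sq_nonneg _
  have h5 : (‖z‖ ^ 2) ^ 2 ≤
      ((p : ℝ) ^ 2 * √(2 * p) * (α * β) ^ 2 * ∑ t : ZMod p, ‖x t‖ ^ 2) * ‖z‖ ^ 2 := by
    refine h3.trans ?_
    calc (∑ t : ZMod p, ‖x t‖ ^ 2) * ∑ t : ZMod p, ‖P.y t z‖ ^ 2
        ≤ (∑ t : ZMod p, ‖x t‖ ^ 2) * ((p : ℝ) ^ 2 * √(2 * p) * (α * β * ‖z‖) ^ 2) :=
          mul_le_mul_of_nonneg_left h4 hX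
      _ = _ := by ring
  rcases eq_or_lt_of_le (sq_nonneg ‖z‖) with h0 | h0
  · rw [← h0]
    positivity
  · rw [pow_two (‖z‖ ^ 2)] at h5
    exact le_of_mul_le_mul_right h5 h0

end

end Pool.Agent.U705
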