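import Pool.Agent.Helper799.Graph

set_option autoImplicit false

/-!
# A bounded geometry metric space of expanders (no property A)
-/

namespace Pool.Agent.U705.ONL

open Finset

/-- connected bounded degree expanders on `n + 2` points -/
theorem exists_G : ∃ G : ∀ n : ℕ, SimpleGraph (Fin (n + 2)),
    (∀ n, (G n).Connected) ∧
    (∀ n x (A : Finset (Fin (n + 2))), (∀ y ∈ A, (G n).Adj x y) → A.card ≤ 48) ∧
    (∀ n (S : Finset (Fin (n + 2))), 2 * S.card ≤ n + 2 →
      ∃ T : Finset (Fin (n + 2)), Disjoint S T ∧ (∀ y ∈ T, ∃ x ∈ S, (G n).Adj x y) ∧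
        (1 / 2 : ℝ) * S.card ≤ T.card) := by
  classical
  have hex := fun n : ℕ => Pool.Agent.Helper799.Graph.exists_graph (n + 2) (Nat.succ_pos _)
  choose R hR1 hR2 hR3 hR4 hR5 using hex
  let G : ∀ n : ℕ, SimpleGraph (Fin (n + 2)) := fun n =>
    { Adj := R n
      symm := ⟨fun x y h => hR1 n x y h⟩
      loopless := ⟨fun x h => hR2 n x h⟩ }
  refine ⟨G, ?_, hR3, hR4⟩
  intro n
  haveI : Nonempty (Fin (n + 2)) := ⟨0⟩
  refine SimpleGraph.Connected.mk ?_
  intro u v
  by_contra hcon
  set S : Finset (Fin (n + 2)) := Finset.univ.filter (fun w => (G n).Reachable u w) with hS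
  have hu : u ∈ S := by
    rw [hS, Finset.mem_filter]; exact ⟨Finset.mem_univ _, SimpleGraph.Reachable.refl u⟩
  have hv : v ∉ S := by rw [hS, Finset.mem_filter]; exact fun h => hcon h.2
  have hcard : S.card + Sᶜ.card = n + 2 := by
    rw [Finset.card_add_card_compl, Fintype.card_fin]
  rcases le_total (2 * S.card) (n + 2) with h | h
  · obtain ⟨T, hT1, hT2, hT3⟩ := hR4 n S h
    have hTe : T = ∅ := by
      rw [Finset.eq_empty_iff_forall_notMem]
      intro y hy
      obtain ⟨x, hx, hxy⟩ := hT2 y hy
      have hyS : y ∈ S := by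
        rw [hS, Finset.mem_filter] at hx ⊢
        exact ⟨Finset.mem_univ _, hx.2.trans (SimpleGraph.Adj.reachable hxy)⟩
      exact Finset.disjoint_left.1 hT1 hyS hy
    rw [hTe] at hT3
    simp only [Finset.card_empty, Nat.cast_zero] at hT3
    have : (0:ℝ) < S.card := by exact_mod_cast Finset.card_pos.2 ⟨u, hu⟩
    linarith
  · have h' : 2 * Sᶜ.card ≤ n + 2 := by omega
    obtain ⟨T, hT1, hT2, hT3⟩ := hR4 n Sᶜ h'
    have hTe : T = ∅ := by
      rw [Finset.eq_empty_iff_forall_notMem]
      intro y hy
      obtain ⟨x, hx, hxy⟩ := hT2 y hy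
      have hyS : y ∈ S := by
        by_contra hyS
        exact Finset.disjoint_left.1 hT1 (Finset.mem_compl.2 hyS) hy
      rw [Finset.mem_compl] at hx
      apply hx
      rw [hS, Finset.mem_filter] at hyS ⊢
      exact ⟨Finset.mem_univ _, hyS.2.trans (SimpleGraph.Adj.reachable (hR1 n _ _ hxy))⟩
    rw [hTe] at hT3
    simp only [Finset.card_empty, Nat.cast_zero] at hT3
    have : (0:ℝ) < Sᶜ.card := by
      exact_mod_cast Finset.card_pos.2 ⟨v, Finset.mem_compl.2 hv⟩
    linarith

/-- growth of balls -/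
lemma ball_card {V : Type} [Fintype V] [DecidableEq V] (G : SimpleGraph V)
    (hconn : G.Connected) (D : ℕ)
    (hdeg : ∀ x (A : Finset V), (∀ y ∈ A, G.Adj x y) → A.card ≤ D) (u : V) (r : ℕ) :
    (Finset.univ.filter (fun v => G.dist v u ≤ r)).card ≤ (D + 1) ^ r := by
  classical
  induction r with
  | zero =>
    have : Finset.univ.filter (fun v => G.dist v u ≤ 0) ⊆ {u} := by
      intro v hv
      rw [Finset.mem_filter] at hv
      rw [Finset.mem_singleton]
      have h0 : G.dist v u = 0 := Nat.le_zero.1 hv.2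
      exact (hconn.dist_eq_zero_iff).1 h0
    simpa using Finset.card_le_card this
  | succ r ih =>
    have hsub : Finset.univ.filter (fun v => G.dist v u ≤ r + 1)
        ⊆ (Finset.univ.filter (fun v => G.dist v u ≤ r)).biUnion
          (fun w => insert w (Finset.univ.filter (fun v => G.Adj w v))) := by
      intro v hv
      rw [Finset.mem_filter] at hv
      rw [Finset.mem_biUnion]
      by_cases h : G.dist v u ≤ r
      · exact ⟨v, by rw [Finset.mem_filter]; exact ⟨Finset.mem_univ _, h⟩,
          Finset.mem_insert_self _ _⟩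
      · have h1 : G.dist v u = r + 1 := by omega
        obtain ⟨p, hp⟩ := hconn.exists_walk_length_eq_dist v u
        cases p with
        | nil => rw [SimpleGraph.dist_self] at h1; omega
        | @cons _ w _ hadj q =>
          rw [SimpleGraph.Walk.length_cons] at hp
          have h2 : G.dist w u ≤ q.length := SimpleGraph.dist_le q
          refine ⟨w, ?_, ?_⟩
          · rw [Finset.mem_filter]
            exact ⟨Finset.mem_univ _, by omega⟩
          · rw [Finset.mem_insert, Finset.mem_filter]
            right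
            exact ⟨Finset.mem_univ _, hadj.symm⟩
    calc (Finset.univ.filter (fun v => G.dist v u ≤ r + 1)).card
        ≤ _ := Finset.card_le_card hsub
      _ ≤ ∑ w ∈ Finset.univ.filter (fun v => G.dist v u ≤ r),
          (insert w (Finset.univ.filter (fun v => G.Adj w v))).card := Finset.card_biUnion_le
      _ ≤ ∑ _w ∈ Finset.univ.filter (fun v => G.dist v u ≤ r), (D + 1) := by
          apply Finset.sum_le_sum
          intro w _
          refine (Finset.card_insert_le _ _).trans ?_
          have := hdeg w (Finset.univ.filter (fun v => G.Adj w v)) (by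
            intro y hy; rw [Finset.mem_filter] at hy; exact hy.2)
          omega
      _ = (Finset.univ.filter (fun v => G.dist v u ≤ r)).card * (D + 1) := by
          rw [Finset.sum_const, smul_eq_mul]
      _ ≤ (D + 1) ^ r * (D + 1) := Nat.mul_le_mul_right _ ih
      _ = (D + 1) ^ (r + 1) := by ring

lemma dist_lt_card {V : Type} [Fintype V] [DecidableEq V] (G : SimpleGraph V)
    (hconn : G.Connected) (u v : V) : G.dist u v < Fintype.card V := by
  obtain ⟨p, hp, hl⟩ := hconn.exists_path_of_dist u v
  rw [← hl]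
  exact hp.length_lt

/-- the box space -/
structure Box (G : ∀ n : ℕ, SimpleGraph (Fin (n + 2))) : Type where
  /-- index of the component -/
  idx : ℕ
  /-- the point in the component -/
  pt : Fin (idx + 2)

namespace Box

variable (G : ∀ n : ℕ, SimpleGraph (Fin (n + 2)))

/-- integer valued distance -/
noncomputable def nd (a b : Box G) : ℕ :=
  if h : a.idx = b.idx then (G b.idx).dist (h ▸ a.pt) b.pt else a.idx + b.idx + 2

lemma nd_same (n : ℕ) (x y : Fin (n + 2)) : nd G ⟨n, x⟩ ⟨n, y⟩ = (G n).dist x y := by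
  simp [nd]

lemma nd_diff {n m : ℕ} (h : n ≠ m) (x : Fin (n + 2)) (y : Fin (m + 2)) :
    nd G ⟨n, x⟩ ⟨m, y⟩ = n + m + 2 := by
  simp [nd, h]

lemma nd_self (a : Box G) : nd G a a = 0 := by
  obtain ⟨n, x⟩ := a
  rw [nd_same, SimpleGraph.dist_self]

lemma nd_comm (a b : Box G) : nd G a b = nd G b a := by
  obtain ⟨n, x⟩ := a
  obtain ⟨m, y⟩ := b
  by_cases h : n = m
  · subst h
    rw [nd_same, nd_same, SimpleGraph.dist_comm]
  · rw [nd_diff G h, nd_diff G (Ne.symm h)]; ring

lemma nd_tri (hG : ∀ n, (G n).Connected) (a b c : Box G) : nd G a c ≤ nd G a b + nd G b c := by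
  obtain ⟨n, x⟩ := a
  obtain ⟨m, y⟩ := b
  obtain ⟨k, z⟩ := c
  by_cases h1 : n = m
  · subst h1
    by_cases h2 : n = k
    · subst h2
      rw [nd_same, nd_same, nd_same]
      exact (hG n).dist_triangle
    · rw [nd_diff G h2, nd_diff G h2]; omega
  · by_cases h2 : n = k
    · subst h2
      rw [nd_same, nd_diff G h1, nd_diff G (Ne.symm h1)]
      have := dist_lt_card (G n) (hG n) x z
      rw [Fintype.card_fin] at this
      omega
    · rw [nd_diff G h1, nd_diff G h2]
      by_cases h3 : m = k
      · subst h3; omega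
      · rw [nd_diff G h3]; omega

lemma nd_eq_zero (hG : ∀ n, (G n).Connected) {a b : Box G} (h : nd G a b = 0) : a = b := by
  obtain ⟨n, x⟩ := a
  obtain ⟨m, y⟩ := b
  by_cases h1 : n = m
  · subst h1
    rw [nd_same, (hG n).dist_eq_zero_iff] at h
    rw [h]
  · rw [nd_diff G h1] at h; omega

/-- the metric -/
@[reducible] noncomputable def metric (hG : ∀ n, (G n).Connected) : MetricSpace (Box G) where
  dist a b := (nd G a b : ℝ)
  dist_self a := by simp [nd_self]
  dist_comm a b := by simp [nd_comm G a b]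
  dist_triangle a b c := by exact_mod_cast nd_tri G hG a b c
  eq_of_dist_eq_zero := by
    intro a b h
    exact nd_eq_zero G hG (by exact_mod_cast h)

/-- points within integer distance `r` of a point: few of them -/
lemma near_card (hG : ∀ n, (G n).Connected)
    (hdeg : ∀ n x (A : Finset (Fin (n + 2))), (∀ y ∈ A, (G n).Adj x y) → A.card ≤ 48)
    (r : ℕ) : ∃ N : ℕ, ∀ a : Box G, {b : Box G | nd G b a ≤ r}.Finite ∧
      {b : Box G | nd G b a ≤ r}.ncard ≤ N := by
  classical
  refine ⟨49 ^ r + ∑ m ∈ Finset.range r, (m + 2), fun a => ?_⟩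
  obtain ⟨n, x⟩ := a
  let P : Finset (Box G) := (Finset.univ.filter (fun v => (G n).dist v x ≤ r)).image
      (fun v => (⟨n, v⟩ : Box G))
  let Q : Finset (Box G) := (Finset.range r).biUnion
      (fun m => (Finset.univ : Finset (Fin (m + 2))).image (fun v => (⟨m, v⟩ : Box G)))
  have hsub : {b : Box G | nd G b ⟨n, x⟩ ≤ r} ⊆ ((P ∪ Q : Finset (Box G)) : Set (Box G)) := by
    rintro ⟨m, y⟩ hb
    rw [Set.mem_setOf_eq] at hb
    rw [Finset.coe_union]
    by_cases h : m = n
    · subst h
      left
      rw [nd_same] at hb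
      exact Finset.mem_coe.2 (Finset.mem_image.2 ⟨y, Finset.mem_filter.2 ⟨Finset.mem_univ _, hb⟩, rfl⟩)
    · right
      rw [nd_diff G h] at hb
      exact Finset.mem_coe.2 (Finset.mem_biUnion.2 ⟨m, Finset.mem_range.2 (by omega),
        Finset.mem_image.2 ⟨y, Finset.mem_univ _, rfl⟩⟩)
  refine ⟨(Finset.finite_toSet _).subset hsub, ?_⟩
  calc {b : Box G | nd G b ⟨n, x⟩ ≤ r}.ncard
      ≤ ((P ∪ Q : Finset (Box G)) : Set (Box G)).ncard :=
        Set.ncard_le_ncard hsub (Finset.finite_toSet _)
    _ = (P ∪ Q).card := Set.ncard_coe_finset _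
    _ ≤ P.card + Q.card := Finset.card_union_le _ _
    _ ≤ 49 ^ r + ∑ m ∈ Finset.range r, (m + 2) := by
        apply Nat.add_le_add
        · refine Finset.card_image_le.trans ?_
          exact ball_card (G n) (hG n) 48 (hdeg n) x r
        · refine Finset.card_biUnion_le.trans ?_
          apply Finset.sum_le_sum
          intro m _
          refine Finset.card_image_le.trans ?_
          simp

end Box

end Pool.Agent.U705.ONL
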